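import Mathlib

set_option autoImplicit false

namespace Pool.Agent.H28.CrossTriples

/-- The constant of the problem. -/
noncomputable def gam : ℝ :=
  sSup ((fun α : ℝ => α ^ 3 * (1 - α) ^ 3 + 3 * α ^ 4 * (1 - α) ^ 2) '' Set.Icc (0 : ℝ) 1)

lemma le_gam (α : ℝ) (h0 : 0 ≤ α) (h1 : α ≤ 1) :
    α ^ 3 * (1 - α) ^ 3 + 3 * α ^ 4 * (1 - α) ^ 2 ≤ gam := by
  apply le_csSup
  · apply IsCompact.bddAbove
    apply isCompact_Icc.image
    fun_prop
  · exact ⟨α, ⟨h0, h1⟩, rfl⟩

lemma gam_nonneg : 0 ≤ gam := by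
  have := le_gam 0 le_rfl zero_le_one
  simpa using this

lemma base (p q : ℝ) (hp : 0 ≤ p) (hq : 0 ≤ q) :
    (p ^ 3 + 3 * p ^ 2 * q) * q ^ 3 ≤ gam * (p + q) ^ 6 := by
  rcases eq_or_lt_of_le (add_nonneg hp hq) with h | h
  · have hp0 : p = 0 := by linarith
    have hq0 : q = 0 := by linarith
    subst hp0; subst hq0; simp
  · have h1 := le_gam (q / (p + q)) (by positivity) (by rw [div_le_one h]; linarith)
    have e : 1 - q / (p + q) = p / (p + q) := by field_simp; ring
    rw [e] at h1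
    have h2 : (p ^ 3 + 3 * p ^ 2 * q) * q ^ 3 =
        ((q / (p + q)) ^ 3 * (p / (p + q)) ^ 3 + 3 * (q / (p + q)) ^ 4 * (p / (p + q)) ^ 2)
          * (p + q) ^ 6 := by
      field_simp
    rw [h2]
    exact mul_le_mul_of_nonneg_right h1 (by positivity)

/-- If a polynomial-like function has a local maximum at `0` then its second order coefficient,
when the first one vanishes, is not positive. -/
lemma no_pos_second (f2 : ℝ) (g : ℝ → ℝ) (hg : ContinuousAt g 0) (hg0 : g 0 = f2)
    (F : ℝ → ℝ) (M δ : ℝ) (hδ : 0 < δ) (hF : ∀ t, F t = M + t ^ 2 * g t)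
    (hmax : ∀ t, |t| ≤ δ → F t ≤ M) : f2 ≤ 0 := by
  by_contra hcon
  push Not at hcon
  have h1 : ∀ᶠ t in nhds (0 : ℝ), 0 < g t := by
    apply hg.eventually
    rw [hg0]
    exact lt_mem_nhds hcon
  rcases Metric.eventually_nhds_iff.1 h1 with ⟨ε, hε, h⟩
  set t := min (ε / 2) δ with ht
  have ht0 : 0 < t := lt_min (by linarith) hδ
  have h2 : 0 < g t := by
    apply h
    rw [Real.dist_eq, sub_zero, abs_of_pos ht0]
    exact lt_of_le_of_lt (min_le_left _ _) (by linarith)
  have h3 := hmax t (by rw [abs_of_pos ht0]; exact min_le_right _ _)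
  rw [hF] at h3
  have : 0 < t ^ 2 * g t := by positivity
  linarith

lemma first_zero (f1 : ℝ) (g : ℝ → ℝ) (hg : ContinuousAt g 0) (hg0 : g 0 = f1)
    (F : ℝ → ℝ) (M δ : ℝ) (hδ : 0 < δ) (hF : ∀ t, F t = M + t * g t)
    (hmax : ∀ t, |t| ≤ δ → F t ≤ M) : f1 = 0 := by
  rcases lt_trichotomy f1 0 with hcon | hcon | hcon
  · exfalso
    have h1 : ∀ᶠ t in nhds (0 : ℝ), g t < 0 :=
      hg.eventually_lt continuousAt_const (by rw [hg0]; exact hcon)
    rcases Metric.eventually_nhds_iff.1 h1 with ⟨ε, hε, h⟩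
    set t := min (ε / 2) δ with ht
    have ht0 : 0 < t := lt_min (by linarith) hδ
    have h2 : g (-t) < 0 := by
      apply h
      rw [Real.dist_eq, sub_zero, abs_neg, abs_of_pos ht0]
      exact lt_of_le_of_lt (min_le_left _ _) (by linarith)
    have h3 := hmax (-t) (by rw [abs_neg, abs_of_pos ht0]; exact min_le_right _ _)
    rw [hF] at h3
    nlinarith [mul_pos ht0 (neg_pos.2 h2)]
  · exact hcon
  · exfalso
    have h1 : ∀ᶠ t in nhds (0 : ℝ), 0 < g t := by
      apply hg.eventually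
      rw [hg0]
      exact lt_mem_nhds hcon
    rcases Metric.eventually_nhds_iff.1 h1 with ⟨ε, hε, h⟩
    set t := min (ε / 2) δ with ht
    have ht0 : 0 < t := lt_min (by linarith) hδ
    have h2 : 0 < g t := by
      apply h
      rw [Real.dist_eq, sub_zero, abs_of_pos ht0]
      exact lt_of_le_of_lt (min_le_left _ _) (by linarith)
    have h3 := hmax t (by rw [abs_of_pos ht0]; exact min_le_right _ _)
    rw [hF] at h3
    nlinarith [mul_pos ht0 h2]

/-- final product as a function of the lengths `p,q,r` of three last arcs -/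
def PX (h X0 p q r : ℝ) : ℝ := X0 + (h + p + r) ^ 3 + 3 * (h + p) ^ 2 * q
def PY (k Y0 p q r : ℝ) : ℝ := Y0 + (k + q) ^ 3 + 3 * k ^ 2 * p + 3 * (k + q) ^ 2 * r

lemma interior_contra (h k X0 Y0 p q r : ℝ) (hh : 0 ≤ h) (hk : 0 ≤ k) (hX0 : 0 ≤ X0)
    (hY0 : 0 ≤ Y0) (hp : 0 < p) (hq : 0 < q) (hr : 0 < r)
    (hmax : ∀ p' q' r', 0 ≤ p' → 0 ≤ q' → 0 ≤ r' → p' + q' + r' = p + q + r →
      PX h X0 p' q' r' * PY k Y0 p' q' r' ≤ PX h X0 p q r * PY k Y0 p q r) : False := by
  obtain ⟨A, hA⟩ : ∃ A, A = h + p := ⟨_, rfl⟩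
  obtain ⟨s, hs⟩ : ∃ s, s = k + q := ⟨_, rfl⟩
  obtain ⟨B, hB⟩ : ∃ B, B = k + q / 2 := ⟨_, rfl⟩
  obtain ⟨X, hX⟩ : ∃ X, X = PX h X0 p q r := ⟨_, rfl⟩
  obtain ⟨Y, hY⟩ : ∃ Y, Y = PY k Y0 p q r := ⟨_, rfl⟩
  have hApos : 0 < A := by linarith
  have hspos : 0 < s := by linarith
  have hBpos : 0 < B := by linarith
  have hXpos : 0 < X := by
    rw [hX, PX]; positivity
  have hYpos : 0 < Y := by
    rw [hY, PY]; positivity
  -- small perturbations stay in the simplex
  have pert : ∀ d1 d2 d3 : ℝ, d1 + d2 + d3 = 0 → ∃ δ > 0, ∀ t : ℝ, |t| ≤ δ →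
      PX h X0 (p + t * d1) (q + t * d2) (r + t * d3) *
        PY k Y0 (p + t * d1) (q + t * d2) (r + t * d3) ≤ X * Y := by
    intro d1 d2 d3 hd
    set m := min p (min q r) with hm
    have hm0 : 0 < m := lt_min hp (lt_min hq hr)
    set D := |d1| + |d2| + |d3| + 1 with hD
    have hD0 : 0 < D := by positivity
    refine ⟨m / D, by positivity, ?_⟩
    intro t ht
    have key : ∀ d : ℝ, |d| ≤ D → ∀ x, m ≤ x → 0 ≤ x + t * d := by
      intro d hd x hx
      have h1 : |t * d| ≤ m := by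
        rw [abs_mul]
        calc |t| * |d| ≤ (m / D) * D := by
              apply mul_le_mul ht hd (abs_nonneg _) (by positivity)
          _ = m := by field_simp
      have h2 := neg_le_of_abs_le h1
      linarith
    rw [hX, hY]
    apply hmax
    · apply key
      · rw [hD]; have := abs_nonneg d2; have := abs_nonneg d3; linarith
      · exact min_le_left _ _
    · apply key
      · rw [hD]; have := abs_nonneg d1; have := abs_nonneg d3; linarith
      · exact le_trans (min_le_right _ _) (min_le_left _ _)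
    · apply key
      · rw [hD]; have := abs_nonneg d1; have := abs_nonneg d2; linarith
      · exact le_trans (min_le_right _ _) (min_le_right _ _)
    · have : t * d1 + t * d2 + t * d3 = 0 := by rw [← mul_add, ← mul_add, hd, mul_zero]
      linarith
  -- first order condition 1
  have c1 : A * Y = B * X := by
    obtain ⟨δ, hδ, hd⟩ := pert 1 0 (-1) (by norm_num)
    have := first_zero (6 * A * q * Y + X * (3 * k ^ 2 - 3 * s ^ 2))
      (fun t => (6 * A * q + 3 * q * t) * Y + X * (3 * k ^ 2 - 3 * s ^ 2)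
        + t * (6 * A * q + 3 * q * t) * (3 * k ^ 2 - 3 * s ^ 2)) (by fun_prop) (by ring)
      (fun t => PX h X0 (p + t * 1) (q + t * 0) (r + t * (-1)) *
        PY k Y0 (p + t * 1) (q + t * 0) (r + t * (-1))) (X * Y) δ hδ (by
          intro t
          have e1 : PX h X0 (p + t * 1) (q + t * 0) (r + t * (-1)) =
            X + t * (6 * A * q + 3 * q * t) := by
            rw [hX, hA]; unfold PX; ring
          have e2 : PY k Y0 (p + t * 1) (q + t * 0) (r + t * (-1)) =
            Y + t * (3 * k ^ 2 - 3 * s ^ 2) := by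
            rw [hY, hs]; unfold PY; ring
          simp only [e1, e2]
          ring) hd
    have e3 : 3 * k ^ 2 - 3 * s ^ 2 = - 6 * q * B := by
      rw [hs, hB]; ring
    rw [e3] at this
    have h6 : 6 * q * (A * Y - B * X) = 0 := by linarith
    have h7 : A * Y - B * X = 0 := by
      rcases mul_eq_zero.1 h6 with h | h
      · exfalso; linarith
      · exact h
    linarith
  -- first order condition 2
  have c2 : (2 * A + r) * Y = 2 * s * X := by
    obtain ⟨δ, hδ, hd⟩ := pert 0 1 (-1) (by norm_num)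
    have := first_zero ((-3 * (A + r) ^ 2 + 3 * A ^ 2) * Y + X * (6 * s * r))
      (fun t => ((-3 * (A + r) ^ 2 + 3 * A ^ 2) + t * (3 * (A + r)) - t ^ 2) * Y
        + X * (6 * s * r + t * (3 * r - 3 * s) + t ^ 2 * (-2))
        + t * ((-3 * (A + r) ^ 2 + 3 * A ^ 2) + t * (3 * (A + r)) - t ^ 2) *
          (6 * s * r + t * (3 * r - 3 * s) + t ^ 2 * (-2))) (by fun_prop) (by ring)
      (fun t => PX h X0 (p + t * 0) (q + t * 1) (r + t * (-1)) *
        PY k Y0 (p + t * 0) (q + t * 1) (r + t * (-1))) (X * Y) δ hδ (by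
          intro t
          have e1 : PX h X0 (p + t * 0) (q + t * 1) (r + t * (-1)) =
            X + t * ((-3 * (A + r) ^ 2 + 3 * A ^ 2) + t * (3 * (A + r)) - t ^ 2) := by
            rw [hX, hA]; unfold PX; ring
          have e2 : PY k Y0 (p + t * 0) (q + t * 1) (r + t * (-1)) =
            Y + t * (6 * s * r + t * (3 * r - 3 * s) + t ^ 2 * (-2)) := by
            rw [hY, hs]; unfold PY; ring
          simp only [e1, e2]
          ring) hd
    have h6 : 3 * r * ((2 * A + r) * Y - 2 * s * X) = 0 := by linarith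
    have h7 : (2 * A + r) * Y - 2 * s * X = 0 := by
      rcases mul_eq_zero.1 h6 with h | h
      · exfalso; linarith
      · exact h
    linarith
  have c3 : r * Y = q * X := by
    have : 2 * s = 2 * B + q := by rw [hs, hB]; ring
    rw [this] at c2
    linarith
  -- so r * B = q * A
  have c4 : r * B = q * A := by
    have h1 : (r * B - q * A) * (X * Y) = 0 := by
      have : (r * B - q * A) * (X * Y) = (r * Y) * (B * X) - (q * X) * (A * Y) := by ring
      rw [this, c3, c1]; ring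
    rcases mul_eq_zero.1 h1 with h | h
    · linarith
    · exfalso
      have : 0 < X * Y := mul_pos hXpos hYpos
      linarith
  -- second order condition
  have c5 : (3 * (A + r) * B ^ 4 + 3 * A ^ 2 * (s ^ 2 * q + 2 * s * B ^ 2)) * Y
      + X * (3 * B ^ 4 * r - 3 * s * B ^ 4 - 6 * A * s ^ 2 * B ^ 2) ≤ 0 := by
    obtain ⟨δ, hδ, hd⟩ := pert (A * s) (B ^ 2) (-(B ^ 2) - A * s) (by ring)
    -- vanishing of first order terms
    have x1 : -3 * B ^ 2 * (A + r) ^ 2 + 3 * A ^ 2 * (2 * s * q + B ^ 2) = 0 := by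
      have : B ^ 2 * (A + r) ^ 2 = (A * (B + q)) ^ 2 := by
        have : B * (A + r) = A * (B + q) := by linarith
        rw [← this]; ring
      have h2 : s = B + q / 2 := by rw [hs, hB]; ring
      rw [h2]
      linear_combination (-3) * this
    have y1 : 3 * s ^ 2 * B ^ 2 + 3 * k ^ 2 * (A * s) + 6 * s * B ^ 2 * r
        - 3 * s ^ 2 * (B ^ 2 + A * s) = 0 := by
      have hk' : k = B - q / 2 := by rw [hB]; ring
      have h2 : s = B + q / 2 := by rw [hs, hB]; ring
      have h3 : k ^ 2 - s ^ 2 = - 2 * B * q := by rw [hk', h2]; ring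
      have h4 : B ^ 2 * r = B * (q * A) := by rw [← c4]; ring
      linear_combination (3 * A * s) * h3 + (6 * s) * h4
    set x2 := 3 * (A + r) * B ^ 4 + 3 * A ^ 2 * (s ^ 2 * q + 2 * s * B ^ 2) with hx2
    set y2 := 3 * B ^ 4 * r - 3 * s * B ^ 4 - 6 * A * s ^ 2 * B ^ 2 with hy2
    obtain ⟨x3, hx3⟩ : ∃ x3, x3 = - B ^ 6 + 3 * A ^ 2 * s ^ 2 * B ^ 2 := ⟨_, rfl⟩
    obtain ⟨y3, hy3⟩ : ∃ y3, y3 = B ^ 6 - 3 * B ^ 4 * (B ^ 2 + A * s) := ⟨_, rfl⟩
    refine no_pos_second (x2 * Y + X * y2)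
      (fun t => (x2 + t * x3) * Y + X * (y2 + t * y3) + t ^ 2 * (x2 + t * x3) * (y2 + t * y3))
      (by fun_prop) (by ring)
      (fun t => PX h X0 (p + t * (A * s)) (q + t * B ^ 2) (r + t * (-(B ^ 2) - A * s)) *
        PY k Y0 (p + t * (A * s)) (q + t * B ^ 2) (r + t * (-(B ^ 2) - A * s))) (X * Y) δ hδ ?_ hd
    intro t
    have e1 : PX h X0 (p + t * (A * s)) (q + t * B ^ 2) (r + t * (-(B ^ 2) - A * s)) =
      X + t ^ 2 * (x2 + t * x3) := by
      have : PX h X0 (p + t * (A * s)) (q + t * B ^ 2) (r + t * (-(B ^ 2) - A * s)) =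
        X + t * (-3 * B ^ 2 * (A + r) ^ 2 + 3 * A ^ 2 * (2 * s * q + B ^ 2))
          + t ^ 2 * (x2 + t * x3) := by
        have hp' : p = A - h := by linarith
        rw [hX, hx2, hx3]; unfold PX; rw [hp']; ring
      rw [this, x1]; ring
    have e2 : PY k Y0 (p + t * (A * s)) (q + t * B ^ 2) (r + t * (-(B ^ 2) - A * s)) =
      Y + t ^ 2 * (y2 + t * y3) := by
      have : PY k Y0 (p + t * (A * s)) (q + t * B ^ 2) (r + t * (-(B ^ 2) - A * s)) =
        Y + t * (3 * s ^ 2 * B ^ 2 + 3 * k ^ 2 * (A * s) + 6 * s * B ^ 2 * r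
          - 3 * s ^ 2 * (B ^ 2 + A * s)) + t ^ 2 * (y2 + t * y3) := by
        have hq' : q = s - k := by linarith
        rw [hY, hy2, hy3]; unfold PY; rw [hq']; ring
      rw [this, y1]; ring
    simp only [e1, e2]
    ring
  -- contradiction
  have h2 : s = B + q / 2 := by rw [hs, hB]; ring
  -- multiply c5 by B and use A * Y = B * X
  have c6 : (3 * (A + r) * B ^ 4 + 3 * A ^ 2 * (s ^ 2 * q + 2 * s * B ^ 2)) * B
      + A * (3 * B ^ 4 * r - 3 * s * B ^ 4 - 6 * A * s ^ 2 * B ^ 2) =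
      3 * A * B ^ 4 * q / 2 + 6 * A ^ 2 * B * (s - B) * (s ^ 2 - B * s + B ^ 2)
      + (3 * B ^ 4) * (r * B - q * A) + (3 * A * B ^ 3) * (r * B - q * A) := by
    rw [h2]; ring
  have c7 : 0 < 3 * A * B ^ 4 * q / 2 + 6 * A ^ 2 * B * (s - B) * (s ^ 2 - B * s + B ^ 2) := by
    have h3 : s - B = q / 2 := by rw [h2]; ring
    have h4 : s ^ 2 - B * s + B ^ 2 = (s - B / 2) ^ 2 + 3 * B ^ 2 / 4 := by ring
    rw [h3, h4]; positivity
  have c8 : 0 < (3 * (A + r) * B ^ 4 + 3 * A ^ 2 * (s ^ 2 * q + 2 * s * B ^ 2)) * B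
      + A * (3 * B ^ 4 * r - 3 * s * B ^ 4 - 6 * A * s ^ 2 * B ^ 2) := by
    rw [c6, c4]; linarith
  set u := 3 * (A + r) * B ^ 4 + 3 * A ^ 2 * (s ^ 2 * q + 2 * s * B ^ 2)
  set v := 3 * B ^ 4 * r - 3 * s * B ^ 4 - 6 * A * s ^ 2 * B ^ 2
  have c9 : (u * B + A * v) * X ≤ 0 := by
    have : (u * B + A * v) * X = A * (u * Y + X * v) := by linear_combination (-u) * c1
    rw [this]
    exact mul_nonpos_of_nonneg_of_nonpos hApos.le c5
  have : 0 < (u * B + A * v) * X := mul_pos c8 hXpos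
  linarith

/-- Three arcs can be replaced by three arcs one of which is empty. -/
lemma reduce3 (h k X0 Y0 p q r : ℝ) (hh : 0 ≤ h) (hk : 0 ≤ k) (hX0 : 0 ≤ X0)
    (hY0 : 0 ≤ Y0) (hp : 0 ≤ p) (hq : 0 ≤ q) (hr : 0 ≤ r) :
    ∃ p' q' r', 0 ≤ p' ∧ 0 ≤ q' ∧ 0 ≤ r' ∧ p' + q' + r' = p + q + r ∧
      (p' = 0 ∨ q' = 0 ∨ r' = 0) ∧
      PX h X0 p q r * PY k Y0 p q r ≤ PX h X0 p' q' r' * PY k Y0 p' q' r' := by
  obtain ⟨L, hL⟩ : ∃ L, L = p + q + r := ⟨_, rfl⟩
  have hL0 : 0 ≤ L := by linarith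
  let K : Set (ℝ × ℝ) := {x | 0 ≤ x.1 ∧ 0 ≤ x.2 ∧ x.1 + x.2 ≤ L}
  have hKc : IsCompact K := by
    apply IsCompact.of_isClosed_subset (isCompact_Icc.prod isCompact_Icc :
      IsCompact (Set.Icc (0 : ℝ) L ×ˢ Set.Icc (0 : ℝ) L))
    · apply IsClosed.inter (isClosed_le continuous_const continuous_fst)
      exact IsClosed.inter (isClosed_le continuous_const continuous_snd)
        (isClosed_le (continuous_fst.add continuous_snd) continuous_const)
    · rintro ⟨a, b⟩ ⟨h1, h2, h3⟩
      simp only at h1 h2 h3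
      refine ⟨⟨h1, ?_⟩, ⟨h2, ?_⟩⟩ <;> simp only <;> linarith
  have hKn : K.Nonempty := ⟨(p, q), hp, hq, by simp only; linarith⟩
  let f : ℝ × ℝ → ℝ := fun x => PX h X0 x.1 x.2 (L - x.1 - x.2) * PY k Y0 x.1 x.2 (L - x.1 - x.2)
  have hf : Continuous f := by
    simp only [f, PX, PY]
    fun_prop
  obtain ⟨⟨p', q'⟩, ⟨h1, h2, h3⟩, hmax⟩ := hKc.exists_isMaxOn hKn hf.continuousOn
  simp only at h1 h2 h3
  have hmax' : ∀ x y z, 0 ≤ x → 0 ≤ y → 0 ≤ z → x + y + z = L →
      PX h X0 x y z * PY k Y0 x y z ≤ PX h X0 p' q' (L - p' - q') * PY k Y0 p' q' (L - p' - q') := by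
    intro x y z hx hy hz hs
    have hmem : (x, y) ∈ K := ⟨hx, hy, by simp only; linarith⟩
    have := hmax hmem
    simp only [Set.mem_ofPred_eq, f] at this
    have hz' : z = L - x - y := by linarith
    rw [hz']
    exact this
  refine ⟨p', q', L - p' - q', h1, h2, by linarith, by rw [← hL]; ring, ?_, ?_⟩
  · by_contra hcon
    push Not at hcon
    obtain ⟨n1, n2, n3⟩ := hcon
    apply interior_contra h k X0 Y0 p' q' (L - p' - q') hh hk hX0 hY0
      (lt_of_le_of_ne h1 (Ne.symm n1)) (lt_of_le_of_ne h2 (Ne.symm n2))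
      (lt_of_le_of_ne (by linarith) (Ne.symm n3))
    intro a b c ha hb hc hs
    exact hmax' a b c ha hb hc (by linarith)
  · exact hmax' p q r hp hq hr hL.symm

/-- total length of arcs of type `true`; lists are written with the innermost arc first -/
def H : List (Bool × ℝ) → ℝ
  | [] => 0
  | (true, x) :: l => H l + x
  | (false, _) :: l => H l

/-- total length of arcs of type `false` -/
def K : List (Bool × ℝ) → ℝ
  | [] => 0
  | (true, _) :: l => K l
  | (false, x) :: l => K l + x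

/-- `3 ∫ φ²` -/
def X : List (Bool × ℝ) → ℝ
  | [] => 0
  | (true, x) :: l => X l + ((H l + x) ^ 3 - (H l) ^ 3)
  | (false, x) :: l => X l + 3 * (H l) ^ 2 * x

/-- `3 ∫ ψ²` -/
def Y : List (Bool × ℝ) → ℝ
  | [] => 0
  | (true, x) :: l => Y l + 3 * (K l) ^ 2 * x
  | (false, x) :: l => Y l + ((K l + x) ^ 3 - (K l) ^ 3)

/-- interchange the two types -/
def sw (l : List (Bool × ℝ)) : List (Bool × ℝ) := l.map (fun a => (!a.1, a.2))

lemma H_sw (l : List (Bool × ℝ)) : H (sw l) = K l := by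
  induction l with
  | nil => rfl
  | cons a l ih =>
    obtain ⟨b, x⟩ := a
    cases b <;> simp_all [sw, H, K]

lemma K_sw (l : List (Bool × ℝ)) : K (sw l) = H l := by
  induction l with
  | nil => rfl
  | cons a l ih =>
    obtain ⟨b, x⟩ := a
    cases b <;> simp_all [sw, H, K]

lemma X_sw (l : List (Bool × ℝ)) : X (sw l) = Y l := by
  induction l with
  | nil => rfl
  | cons a l ih =>
    have h1 := H_sw l
    obtain ⟨b, x⟩ := a
    cases b <;> simp_all [sw, X, Y]

lemma Y_sw (l : List (Bool × ℝ)) : Y (sw l) = X l := by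
  induction l with
  | nil => rfl
  | cons a l ih =>
    have h1 := K_sw l
    obtain ⟨b, x⟩ := a
    cases b <;> simp_all [sw, X, Y]

lemma H_nonneg (l : List (Bool × ℝ)) (hl : ∀ a ∈ l, 0 ≤ a.2) : 0 ≤ H l := by
  induction l with
  | nil => simp [H]
  | cons a l ih =>
    have h1 := ih (fun b hb => hl b (List.mem_cons_of_mem _ hb))
    have h2 := hl a List.mem_cons_self
    obtain ⟨b, x⟩ := a
    cases b <;> simp only [H] <;> simp only at h2 <;> linarith

lemma cube_H_le (l : List (Bool × ℝ)) (hl : ∀ a ∈ l, 0 ≤ a.2) : (H l) ^ 3 ≤ X l := by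
  induction l with
  | nil => simp [H, X]
  | cons a l ih =>
    have h1 := ih (fun b hb => hl b (List.mem_cons_of_mem _ hb))
    have h2 := hl a List.mem_cons_self
    have h3 := H_nonneg l (fun b hb => hl b (List.mem_cons_of_mem _ hb))
    obtain ⟨b, x⟩ := a
    cases b
    · simp only [H, X]
      simp only at h2
      have : 0 ≤ 3 * (H l) ^ 2 * x := by positivity
      linarith
    · simp only [H, X]
      linarith

lemma sw_nonneg (l : List (Bool × ℝ)) (hl : ∀ a ∈ l, 0 ≤ a.2) : ∀ a ∈ sw l, 0 ≤ a.2 := by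
  intro a ha
  simp only [sw, List.mem_map] at ha
  obtain ⟨b, hb, rfl⟩ := ha
  exact hl b hb

lemma K_nonneg (l : List (Bool × ℝ)) (hl : ∀ a ∈ l, 0 ≤ a.2) : 0 ≤ K l := by
  rw [← H_sw]; exact H_nonneg _ (sw_nonneg l hl)

lemma cube_K_le (l : List (Bool × ℝ)) (hl : ∀ a ∈ l, 0 ≤ a.2) : (K l) ^ 3 ≤ Y l := by
  rw [← H_sw, ← X_sw]; exact cube_H_le _ (sw_nonneg l hl)

/-- The inequality only depends on the four numbers attached to a list. -/
lemma transfer (l l' : List (Bool × ℝ)) (h1 : H l' = H l) (h2 : K l' = K l) (h3 : X l' = X l)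
    (h4 : Y l' = Y l) (h : X l * Y l ≤ gam * (H l + K l) ^ 6) :
    X l' * Y l' ≤ gam * (H l' + K l') ^ 6 := by
  rw [h1, h2, h3, h4]; exact h

/-- merging two arcs of the same type -/
lemma merge (b : Bool) (x y : ℝ) (l : List (Bool × ℝ)) :
    H ((b, x) :: (b, y) :: l) = H ((b, y + x) :: l) ∧
    K ((b, x) :: (b, y) :: l) = K ((b, y + x) :: l) ∧
    X ((b, x) :: (b, y) :: l) = X ((b, y + x) :: l) ∧
    Y ((b, x) :: (b, y) :: l) = Y ((b, y + x) :: l) := by
  cases b
  · refine ⟨?_, ?_, ?_, ?_⟩ <;> simp only [H, K, X, Y] <;> ring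
  · refine ⟨?_, ?_, ?_, ?_⟩ <;> simp only [H, K, X, Y] <;> ring

/-- erasing an empty arc -/
lemma erase0 (b : Bool) (l : List (Bool × ℝ)) :
    H ((b, 0) :: l) = H l ∧ K ((b, 0) :: l) = K l ∧ X ((b, 0) :: l) = X l ∧
      Y ((b, 0) :: l) = Y l := by
  cases b
  · refine ⟨?_, ?_, ?_, ?_⟩ <;> simp only [H, K, X, Y] <;> ring
  · refine ⟨?_, ?_, ?_, ?_⟩ <;> simp only [H, K, X, Y] <;> ring

/-- adding the same arc on the inner side preserves equality of the four numbers -/
lemma cons_congr (a : Bool × ℝ) (l l' : List (Bool × ℝ))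
    (h : H l' = H l ∧ K l' = K l ∧ X l' = X l ∧ Y l' = Y l) :
    H (a :: l') = H (a :: l) ∧ K (a :: l') = K (a :: l) ∧ X (a :: l') = X (a :: l) ∧
      Y (a :: l') = Y (a :: l) := by
  obtain ⟨h1, h2, h3, h4⟩ := h
  obtain ⟨b, x⟩ := a
  cases b
  · refine ⟨?_, ?_, ?_, ?_⟩ <;> simp only [H, K, X, Y, h1, h2, h3, h4]
  · refine ⟨?_, ?_, ?_, ?_⟩ <;> simp only [H, K, X, Y, h1, h2, h3, h4]

lemma alt_false (l : List (Bool × ℝ)) (x1 x2 x3 : ℝ) (h1 : 0 ≤ x1) (h2 : 0 ≤ x2) (h3 : 0 ≤ x3)
    (hl' : ∀ a ∈ l, 0 ≤ a.2)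
    (key : ∀ (p q r : ℝ), 0 ≤ p → 0 ≤ q → 0 ≤ r → (p = 0 ∨ q = 0 ∨ r = 0) →
          X ((false, r) :: (true, q) :: (false, p) :: l) *
            Y ((false, r) :: (true, q) :: (false, p) :: l) ≤
          gam * (H ((false, r) :: (true, q) :: (false, p) :: l)
            + K ((false, r) :: (true, q) :: (false, p) :: l)) ^ 6) :
    X ((false, x1) :: (true, x2) :: (false, x3) :: l) *
            Y ((false, x1) :: (true, x2) :: (false, x3) :: l) ≤
          gam * (H ((false, x1) :: (true, x2) :: (false, x3) :: l)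
            + K ((false, x1) :: (true, x2) :: (false, x3) :: l)) ^ 6 := by
  have hHl := H_nonneg l hl'
  have hKl := K_nonneg l hl'
  have hXl := cube_H_le l hl'
  have hYl := cube_K_le l hl'
  obtain ⟨p, q, r, hp, hq, hr, hsum, hz, hle⟩ := reduce3 (K l) (H l) (Y l - (K l) ^ 3)
    (X l - (H l) ^ 3) x3 x2 x1 hKl hHl (by linarith) (by linarith) h3 h2 h1
  have hk := key p q r hp hq hr hz
  have a1 : ∀ x y z : ℝ, Y ((false, z) :: (true, y) :: (false, x) :: l) =
      PX (K l) (Y l - K l ^ 3) x y z := by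
    intro x y z; simp only [Y, K, PX]; ring
  have a2 : ∀ x y z : ℝ, X ((false, z) :: (true, y) :: (false, x) :: l) =
      PY (H l) (X l - H l ^ 3) x y z := by
    intro x y z; simp only [X, H, PY]; ring
  have a3 : ∀ x y z : ℝ, H ((false, z) :: (true, y) :: (false, x) :: l) +
      K ((false, z) :: (true, y) :: (false, x) :: l) = H l + K l + (x + y + z) := by
    intro x y z; simp only [H, K]; ring
  rw [a1, a2, a3, mul_comm] at hk
  rw [a1, a2, a3, mul_comm]
  rw [hsum] at hk
  exact le_trans hle hk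

lemma alt_true (l : List (Bool × ℝ)) (x1 x2 x3 : ℝ) (h1 : 0 ≤ x1) (h2 : 0 ≤ x2) (h3 : 0 ≤ x3)
    (hl' : ∀ a ∈ l, 0 ≤ a.2)
    (key : ∀ (p q r : ℝ), 0 ≤ p → 0 ≤ q → 0 ≤ r → (p = 0 ∨ q = 0 ∨ r = 0) →
          X ((true, r) :: (false, q) :: (true, p) :: l) *
            Y ((true, r) :: (false, q) :: (true, p) :: l) ≤
          gam * (H ((true, r) :: (false, q) :: (true, p) :: l)
            + K ((true, r) :: (false, q) :: (true, p) :: l)) ^ 6) :
    X ((true, x1) :: (false, x2) :: (true, x3) :: l) *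
            Y ((true, x1) :: (false, x2) :: (true, x3) :: l) ≤
          gam * (H ((true, x1) :: (false, x2) :: (true, x3) :: l)
            + K ((true, x1) :: (false, x2) :: (true, x3) :: l)) ^ 6 := by
  have hHl := H_nonneg l hl'
  have hKl := K_nonneg l hl'
  have hXl := cube_H_le l hl'
  have hYl := cube_K_le l hl'
  obtain ⟨p, q, r, hp, hq, hr, hsum, hz, hle⟩ := reduce3 (H l) (K l) (X l - (H l) ^ 3)
    (Y l - (K l) ^ 3) x3 x2 x1 hHl hKl (by linarith) (by linarith) h3 h2 h1
  have hk := key p q r hp hq hr hz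
  have a1 : ∀ x y z : ℝ, X ((true, z) :: (false, y) :: (true, x) :: l) =
      PX (H l) (X l - H l ^ 3) x y z := by
    intro x y z; simp only [X, H, PX]; ring
  have a2 : ∀ x y z : ℝ, Y ((true, z) :: (false, y) :: (true, x) :: l) =
      PY (K l) (Y l - K l ^ 3) x y z := by
    intro x y z; simp only [Y, K, PY]; ring
  have a3 : ∀ x y z : ℝ, H ((true, z) :: (false, y) :: (true, x) :: l) +
      K ((true, z) :: (false, y) :: (true, x) :: l) = H l + K l + (x + y + z) := by
    intro x y z; simp only [H, K]; ring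
  rw [a1, a2, a3] at hk
  rw [a1, a2, a3]
  rw [hsum] at hk
  exact le_trans hle hk

/-- The bound for lists of arcs. -/
theorem arcs_bound : ∀ (n : ℕ) (l : List (Bool × ℝ)), l.length ≤ n → (∀ a ∈ l, 0 ≤ a.2) →
    X l * Y l ≤ gam * (H l + K l) ^ 6 := by
  intro n
  induction n with
  | zero =>
    intro l hl _
    have : l = [] := List.length_eq_zero_iff.1 (Nat.le_zero.1 hl)
    subst this
    simp [X, Y, H, K]
  | succ n ih =>
    intro l hl hpos
    match l, hl, hpos with
    | [], _, _ => simp [X, Y, H, K]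
    | [(true, x)], _, hpos =>
      have h1 : 0 ≤ x := hpos (true, x) (by simp)
      simp only [X, Y, H, K]
      have := gam_nonneg
      have : 0 ≤ gam * (0 + x + 0) ^ 6 := by positivity
      nlinarith
    | [(false, x)], _, hpos =>
      have h1 : 0 ≤ x := hpos (false, x) (by simp)
      simp only [X, Y, H, K]
      have := gam_nonneg
      have : 0 ≤ gam * (0 + (0 + x)) ^ 6 := by positivity
      nlinarith
    | [(b1, x1), (b2, x2)], _, hpos =>
      have h1 : 0 ≤ x1 := hpos (b1, x1) (by simp)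
      have h2 : 0 ≤ x2 := hpos (b2, x2) (by simp)
      have g0 := gam_nonneg
      cases b1 <;> cases b2 <;> simp only [X, Y, H, K]
      · have : 0 ≤ gam * (0 + (0 + x2 + x1)) ^ 6 := by positivity
        nlinarith
      · have := base x2 x1 h2 h1
        calc _ = (x2 ^ 3 + 3 * x2 ^ 2 * x1) * x1 ^ 3 := by ring
          _ ≤ _ := this
          _ = _ := by ring
      · have := base x2 x1 h2 h1
        calc _ = (x2 ^ 3 + 3 * x2 ^ 2 * x1) * x1 ^ 3 := by ring
          _ ≤ _ := this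
          _ = _ := by ring
      · have : 0 ≤ gam * (0 + x2 + x1 + 0) ^ 6 := by positivity
        nlinarith
    | (b1, x1) :: (b2, x2) :: (b3, x3) :: l, hl, hpos =>
      have h1 : 0 ≤ x1 := hpos (b1, x1) (by simp)
      have h2 : 0 ≤ x2 := hpos (b2, x2) (by simp)
      have h3 : 0 ≤ x3 := hpos (b3, x3) (by simp)
      have hl' : ∀ a ∈ l, 0 ≤ a.2 := fun a ha => hpos a (by simp [ha])
      have hlen : l.length + 3 ≤ n + 1 := by
        simp only [List.length_cons] at hl; omega
      have hHl := H_nonneg l hl'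
      have hKl := K_nonneg l hl'
      have hXl := cube_H_le l hl'
      have hYl := cube_K_le l hl'
      have ih2 : ∀ (c d : Bool) (x y : ℝ), 0 ≤ x → 0 ≤ y →
          X ((c, x) :: (d, y) :: l) * Y ((c, x) :: (d, y) :: l) ≤
          gam * (H ((c, x) :: (d, y) :: l) + K ((c, x) :: (d, y) :: l)) ^ 6 := by
        intro c d x y hx hy
        apply ih
        · simp only [List.length_cons]; omega
        · intro a ha
          simp only [List.mem_cons] at ha
          rcases ha with rfl | rfl | ha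
          · exact hx
          · exact hy
          · exact hl' a ha
      by_cases e12 : b1 = b2
      · -- merge the first two
        subst e12
        obtain ⟨m1, m2, m3, m4⟩ := merge b1 x1 x2 ((b3, x3) :: l)
        exact transfer _ _ m1 m2 m3 m4 (ih2 b1 b3 _ _ (add_nonneg h2 h1) h3)
      by_cases e23 : b2 = b3
      · subst e23
        obtain ⟨m1, m2, m3, m4⟩ := cons_congr (b1, x1) _ _ (merge b2 x2 x3 l)
        exact transfer _ _ m1 m2 m3 m4 (ih2 b1 b2 _ _ h1 (add_nonneg h3 h2))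
      -- alternating case; general statement for an alternating triple
      have key : ∀ (b : Bool) (p q r : ℝ), 0 ≤ p → 0 ≤ q → 0 ≤ r → (p = 0 ∨ q = 0 ∨ r = 0) →
          X ((b, r) :: (!b, q) :: (b, p) :: l) * Y ((b, r) :: (!b, q) :: (b, p) :: l) ≤
          gam * (H ((b, r) :: (!b, q) :: (b, p) :: l)
            + K ((b, r) :: (!b, q) :: (b, p) :: l)) ^ 6 := by
        intro b p q r hp hq hr hz
        rcases hz with hz | hz | hz
        · subst hz
          obtain ⟨m1, m2, m3, m4⟩ := cons_congr (b, r) _ _ (cons_congr (!b, q) _ _ (erase0 b l))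
          exact transfer _ _ m1 m2 m3 m4 (ih2 _ _ _ _ hr hq)
        · subst hz
          obtain ⟨m1, m2, m3, m4⟩ := cons_congr (b, r) _ _ (erase0 (!b) ((b, p) :: l))
          exact transfer _ _ m1 m2 m3 m4 (ih2 _ _ _ _ hr hp)
        · subst hz
          obtain ⟨m1, m2, m3, m4⟩ := erase0 b ((!b, q) :: (b, p) :: l)
          exact transfer _ _ m1 m2 m3 m4 (ih2 _ _ _ _ hq hp)
      cases b1
      · -- types false, true, false
        have hb2 : b2 = true := by
          cases b2
          · exact absurd rfl e12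
          · rfl
        subst hb2
        have hb3 : b3 = false := by
          cases b3
          · rfl
          · exact absurd rfl e23
        subst hb3
        exact alt_false l x1 x2 x3 h1 h2 h3 hl' (key false)
      · have hb2 : b2 = false := by
          cases b2
          · rfl
          · exact absurd rfl e12
        subst hb2
        have hb3 : b3 = true := by
          cases b3
          · exact absurd rfl e23
          · rfl
        subst hb3
        exact alt_true l x1 x2 x3 h1 h2 h3 hl' (key true)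

end Pool.Agent.H28.CrossTriples
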