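import Mathlib
import Pool.Agent.H28.ContArcs

set_option autoImplicit false

namespace Pool.Agent.H28.CrossTriples

/-- weight of a list of types (innermost first): sum of `C(h,2)` -/
def T1 : List Bool → ℕ
  | [] => 0
  | _ :: l => T1 l + (l.count true).choose 2

def T0 : List Bool → ℕ
  | [] => 0
  | _ :: l => T0 l + (l.count false).choose 2

def S1 : List Bool → ℕ
  | [] => 0
  | _ :: l => S1 l + l.count true

def S0 : List Bool → ℕ
  | [] => 0
  | _ :: l => S0 l + l.count false

/-- unit arcs -/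
noncomputable def arcs (l : List Bool) : List (Bool × ℝ) := l.map (fun b => (b, (1 : ℝ)))

lemma H_arcs (l : List Bool) : H (arcs l) = (l.count true : ℝ) := by
  induction l with
  | nil => simp [arcs, H]
  | cons b l ih =>
    cases b <;> simp_all [arcs, H]

lemma K_arcs (l : List Bool) : K (arcs l) = (l.count false : ℝ) := by
  induction l with
  | nil => simp [arcs, K]
  | cons b l ih =>
    cases b <;> simp_all [arcs, K]

lemma choose_two_real (h : ℕ) : ((h.choose 2 : ℕ) : ℝ) = (h : ℝ) * ((h : ℝ) - 1) / 2 :=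
  Nat.cast_choose_two ℝ h

lemma X_arcs (l : List Bool) : X (arcs l) =
    6 * (T1 l : ℝ) + 3 * (S1 l : ℝ) + (3 * (l.count true : ℝ) ^ 2 - (l.count true : ℝ)) / 2 := by
  induction l with
  | nil => simp [arcs, X, T1, S1]
  | cons b l ih =>
    have h1 := H_arcs l
    have e : arcs (b :: l) = (b, 1) :: arcs l := rfl
    rw [e]
    cases b
    · simp only [X, T1, S1, h1, ih]
      rw [List.count_cons_of_ne (by decide)]
      push_cast
      rw [choose_two_real]
      ring
    · simp only [X, T1, S1, h1, ih]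
      rw [List.count_cons_self]
      push_cast
      rw [choose_two_real]
      ring

lemma Y_arcs (l : List Bool) : Y (arcs l) =
    6 * (T0 l : ℝ) + 3 * (S0 l : ℝ) + (3 * (l.count false : ℝ) ^ 2 - (l.count false : ℝ)) / 2 := by
  induction l with
  | nil => simp [arcs, Y, T0, S0]
  | cons b l ih =>
    have h1 := K_arcs l
    have e : arcs (b :: l) = (b, 1) :: arcs l := rfl
    rw [e]
    cases b
    · simp only [Y, T0, S0, h1, ih]
      rw [List.count_cons_self]
      push_cast
      rw [choose_two_real]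
      ring
    · simp only [Y, T0, S0, h1, ih]
      rw [List.count_cons_of_ne (by decide)]
      push_cast
      rw [choose_two_real]
      ring

lemma count_sum (l : List Bool) : ((l.count true : ℝ)) + (l.count false : ℝ) = (l.length : ℝ) := by
  induction l with
  | nil => simp
  | cons b l ih =>
    cases b
    · rw [List.count_cons_of_ne (by decide), List.count_cons_self]
      push_cast [List.length_cons]; linarith
    · rw [List.count_cons_self, List.count_cons_of_ne (by decide)]
      push_cast [List.length_cons]; linarith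

lemma S_sum (l : List Bool) : (S1 l : ℝ) + (S0 l : ℝ) = (l.length : ℝ) * ((l.length : ℝ) - 1) / 2 := by
  induction l with
  | nil => simp [S1, S0]
  | cons b l ih =>
    have := count_sum l
    simp only [S1, S0]
    push_cast [List.length_cons]
    linarith

lemma S1_ge (l : List Bool) :
    (l.count true : ℝ) * ((l.count true : ℝ) - 1) / 2 ≤ (S1 l : ℝ) := by
  induction l with
  | nil => simp [S1]
  | cons b l ih =>
    cases b
    · rw [List.count_cons_of_ne (by decide)]
      simp only [S1]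
      push_cast
      have : (0 : ℝ) ≤ (l.count true : ℝ) := by positivity
      linarith
    · rw [List.count_cons_self]
      simp only [S1]
      push_cast
      linarith

lemma T1_le (l : List Bool) : 6 * (T1 l : ℝ) ≤
    3 * ((l.count true : ℝ) - 1) * (S1 l : ℝ)
      - (l.count true : ℝ) * ((l.count true : ℝ) ^ 2 - 1) / 2 := by
  induction l with
  | nil => simp [S1, T1]
  | cons b l ih =>
    have h1 := S1_ge l
    cases b
    · rw [List.count_cons_of_ne (by decide)]
      simp only [S1, T1]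
      push_cast
      rw [choose_two_real]
      linarith
    · rw [List.count_cons_self]
      simp only [S1, T1]
      push_cast
      rw [choose_two_real]
      nlinarith

/-- swap -/
lemma count_not (l : List Bool) : (l.map (fun b => !b)).count true = l.count false ∧
    (l.map (fun b => !b)).count false = l.count true := by
  induction l with
  | nil => simp
  | cons b l ih =>
    obtain ⟨h1, h2⟩ := ih
    cases b
    · simp only [List.map_cons, Bool.not_false]
      rw [List.count_cons_self, List.count_cons_self, h1,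
        List.count_cons_of_ne (by decide), List.count_cons_of_ne (by decide), h2]
      exact ⟨rfl, rfl⟩
    · simp only [List.map_cons, Bool.not_true]
      rw [List.count_cons_self, List.count_cons_self, h2,
        List.count_cons_of_ne (by decide), List.count_cons_of_ne (by decide), h1]
      exact ⟨rfl, rfl⟩

lemma S1_not (l : List Bool) : S1 (l.map (fun b => !b)) = S0 l := by
  induction l with
  | nil => rfl
  | cons b l ih => simp only [List.map_cons, S1, S0, ih, (count_not l).1]

lemma T1_not (l : List Bool) : T1 (l.map (fun b => !b)) = T0 l := by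
  induction l with
  | nil => rfl
  | cons b l ih => simp only [List.map_cons, T1, T0, ih, (count_not l).1]

lemma S0_ge (l : List Bool) :
    (l.count false : ℝ) * ((l.count false : ℝ) - 1) / 2 ≤ (S0 l : ℝ) := by
  have := S1_ge (l.map (fun b => !b))
  rw [S1_not, (count_not l).1] at this
  exact this

lemma T0_le (l : List Bool) : 6 * (T0 l : ℝ) ≤
    3 * ((l.count false : ℝ) - 1) * (S0 l : ℝ)
      - (l.count false : ℝ) * ((l.count false : ℝ) ^ 2 - 1) / 2 := by
  have := T1_le (l.map (fun b => !b))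
  rw [S1_not, T1_not, (count_not l).1] at this
  exact this

lemma cs_ineq (w z a b : ℝ) (hw : 0 < w) (hz : 0 < z) (ha : 0 < a) (hb : 0 < b) :
    w + z + 4 * w * z / (w + z) ≤ (w / a + z / b) * (a + b) := by
  have h : (w / a + z / b) * (a + b) - (w + z + 4 * w * z / (w + z)) =
      ((w * b - z * a) ^ 2 + w * z * (a - b) ^ 2) / (a * b * (w + z)) := by
    field_simp
    ring
  have h2 : 0 ≤ ((w * b - z * a) ^ 2 + w * z * (a - b) ^ 2) / (a * b * (w + z)) := by positivity
  linarith

lemma mid_ineq (w z n : ℝ) (hw : 0 < w) (hz : 0 < z) (hn : n = w + z) :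
    7 / n ≤ 1 / w + 1 / z + 2 * (n + 4 * w * z / n) / (n ^ 2 + w * z) := by
  have hn0 : 0 < n := by linarith
  have h : 1 / w + 1 / z + 2 * (n + 4 * w * z / n) / (n ^ 2 + w * z) - 7 / n =
      (n ^ 4 - 4 * n ^ 2 * (w * z) + (w * z) ^ 2) / (w * z * n * (n ^ 2 + w * z)) := by
    have h1 : 1 / w + 1 / z = n / (w * z) := by
      rw [hn]; field_simp; ring
    rw [h1]
    field_simp
    ring
  have h2 : 0 ≤ n ^ 4 - 4 * n ^ 2 * (w * z) + (w * z) ^ 2 := by
    have h3 : n ^ 2 - 4 * (w * z) = (w - z) ^ 2 := by rw [hn]; ring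
    have h4 : n ^ 4 - 4 * n ^ 2 * (w * z) + (w * z) ^ 2 = n ^ 2 * (w - z) ^ 2 + (w * z) ^ 2 := by
      rw [← h3]; ring
    rw [h4]; positivity
  have h5 : 0 ≤ (n ^ 4 - 4 * n ^ 2 * (w * z) + (w * z) ^ 2) / (w * z * n * (n ^ 2 + w * z)) := by
    positivity
  linarith

lemma last_ineq (n : ℝ) (hn : 29 ≤ n) : n ^ 4 ≤ (1 + 7 / n) * ((n - 1) ^ 2 * (n - 2) ^ 2) := by
  have hn0 : 0 < n := by linarith
  have h : (1 + 7 / n) * ((n - 1) ^ 2 * (n - 2) ^ 2) - n ^ 4 =
      (n ^ 3 * (n - 29) + n * (79 * n - 80) + 28) / n := by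
    field_simp
    ring
  have h2 : 0 ≤ (n ^ 3 * (n - 29) + n * (79 * n - 80) + 28) / n := by
    apply div_nonneg _ hn0.le
    have h3 : 0 ≤ n ^ 3 * (n - 29) := mul_nonneg (by positivity) (by linarith)
    have h4 : 0 ≤ n * (79 * n - 80) := mul_nonneg hn0.le (by linarith)
    linarith
  linarith

lemma final_ineq (w z S S' a b n : ℝ) (hn : n = w + z) (hn29 : 29 ≤ n) (hw : 0 < w) (hz : 0 < z)
    (ha : 0 < a) (hb : 0 < b) (hS : 0 ≤ S) (hS' : 0 ≤ S') (h1 : S ≤ 3 * w * a)
    (h2 : S' ≤ 3 * z * b) (hab : a + b ≤ (n ^ 2 + w * z) / 3) :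
    S * S' * n ^ 4 ≤ (S + 3 * a + 2 * w ^ 2) * (S' + 3 * b + 2 * z ^ 2)
      * ((n - 1) ^ 2 * (n - 2) ^ 2) := by
  have hn0 : 0 < n := by linarith
  have e1 : S * (1 + (1 / w + 2 * w / (3 * a))) ≤ S + 3 * a + 2 * w ^ 2 := by
    have : S * (1 / w + 2 * w / (3 * a)) ≤ 3 * w * a * (1 / w + 2 * w / (3 * a)) :=
      mul_le_mul_of_nonneg_right h1 (by positivity)
    have e : 3 * w * a * (1 / w + 2 * w / (3 * a)) = 3 * a + 2 * w ^ 2 := by
      field_simp
    linarith
  have e2 : S' * (1 + (1 / z + 2 * z / (3 * b))) ≤ S' + 3 * b + 2 * z ^ 2 := by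
    have : S' * (1 / z + 2 * z / (3 * b)) ≤ 3 * z * b * (1 / z + 2 * z / (3 * b)) :=
      mul_le_mul_of_nonneg_right h2 (by positivity)
    have e : 3 * z * b * (1 / z + 2 * z / (3 * b)) = 3 * b + 2 * z ^ 2 := by
      field_simp
    linarith
  have e3 : S * S' * (1 + 7 / n) ≤ (S + 3 * a + 2 * w ^ 2) * (S' + 3 * b + 2 * z ^ 2) := by
    have f1 : S * (1 + (1 / w + 2 * w / (3 * a))) * (S' * (1 + (1 / z + 2 * z / (3 * b)))) ≤
        (S + 3 * a + 2 * w ^ 2) * (S' + 3 * b + 2 * z ^ 2) :=
      mul_le_mul e1 e2 (by positivity) (by positivity)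
    have f2 : 1 + 7 / n ≤ (1 + (1 / w + 2 * w / (3 * a))) * (1 + (1 / z + 2 * z / (3 * b))) := by
      have g1 := cs_ineq w z a b hw hz ha hb
      have g2 := mid_ineq w z n hw hz hn
      have g3 : 2 * (n + 4 * w * z / n) / (n ^ 2 + w * z) ≤ 2 * w / (3 * a) + 2 * z / (3 * b) := by
        rw [div_le_iff₀ (by positivity)]
        have g4 : n + 4 * w * z / n ≤ (w / a + z / b) * ((n ^ 2 + w * z) / 3) := by
          have : (w / a + z / b) * (a + b) ≤ (w / a + z / b) * ((n ^ 2 + w * z) / 3) :=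
            mul_le_mul_of_nonneg_left hab (by positivity)
          rw [← hn] at g1
          linarith
        have g5 : (2 * w / (3 * a) + 2 * z / (3 * b)) * (n ^ 2 + w * z) =
            2 * ((w / a + z / b) * ((n ^ 2 + w * z) / 3)) := by
          field_simp
        rw [g5]; linarith
      have g6 : 0 ≤ (1 / w + 2 * w / (3 * a)) * (1 / z + 2 * z / (3 * b)) := by positivity
      have g7 : (1 + (1 / w + 2 * w / (3 * a))) * (1 + (1 / z + 2 * z / (3 * b))) =
        1 + (1 / w + 1 / z + (2 * w / (3 * a) + 2 * z / (3 * b)))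
          + (1 / w + 2 * w / (3 * a)) * (1 / z + 2 * z / (3 * b)) := by ring
      rw [g7]; linarith
    have f3 : S * S' * (1 + 7 / n) ≤
        S * S' * ((1 + (1 / w + 2 * w / (3 * a))) * (1 + (1 / z + 2 * z / (3 * b)))) :=
      mul_le_mul_of_nonneg_left f2 (by positivity)
    calc _ ≤ _ := f3
      _ = S * (1 + (1 / w + 2 * w / (3 * a))) * (S' * (1 + (1 / z + 2 * z / (3 * b)))) := by ring
      _ ≤ _ := f1
  have e4 := last_ineq n hn29
  calc S * S' * n ^ 4 ≤ S * S' * ((1 + 7 / n) * ((n - 1) ^ 2 * (n - 2) ^ 2)) :=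
        mul_le_mul_of_nonneg_left e4 (by positivity)
    _ = S * S' * (1 + 7 / n) * ((n - 1) ^ 2 * (n - 2) ^ 2) := by ring
    _ ≤ _ := mul_le_mul_of_nonneg_right e3 (by positivity)

/-- The discrete bound for lists of length `n ≥ 29`. -/
theorem list_bound (l : List Bool) (hl : 29 ≤ l.length) :
    (T1 l : ℝ) * (T0 l : ℝ) ≤ gam * ((l.length.choose 3 : ℕ) : ℝ) ^ 2 := by
  have hchoose : ((l.length.choose 3 : ℕ) : ℝ) =
      (l.length : ℝ) * ((l.length : ℝ) - 1) * ((l.length : ℝ) - 2) / 6 := by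
    rw [Nat.cast_choose_eq_descPochhammer_div]
    simp [descPochhammer_succ_right, Nat.factorial]
  obtain ⟨n, hn⟩ : ∃ n : ℝ, n = (l.length : ℝ) := ⟨_, rfl⟩
  have hn29 : (29 : ℝ) ≤ n := by rw [hn]; exact_mod_cast hl
  obtain ⟨w, hw⟩ : ∃ w : ℝ, w = (l.count true : ℝ) := ⟨_, rfl⟩
  obtain ⟨z, hz⟩ : ∃ z : ℝ, z = (l.count false : ℝ) := ⟨_, rfl⟩
  have hwz : n = w + z := by rw [hn, hw, hz, count_sum]
  have hT1 := T1_le l
  have hT0 := T0_le l
  have hXY := arcs_bound (arcs l).length (arcs l) le_rfl (by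
    intro a ha
    simp only [arcs, List.mem_map] at ha
    obtain ⟨b, _, rfl⟩ := ha
    exact zero_le_one)
  rw [H_arcs, K_arcs, X_arcs, Y_arcs, count_sum] at hXY
  have hSum := S_sum l
  rw [hchoose]
  rw [← hn] at hXY hSum ⊢
  rw [← hw] at hXY hT1
  rw [← hz] at hXY hT0
  have hg := gam_nonneg
  have hrhs : 0 ≤ gam * (n * (n - 1) * (n - 2) / 6) ^ 2 := by positivity
  -- trivial cases
  rcases Nat.eq_zero_or_pos (T1 l) with h0 | h0
  · rw [h0]; simpa using hrhs
  rcases Nat.eq_zero_or_pos (T0 l) with h0' | h0'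
  · rw [h0']; simpa using hrhs
  have p1 : (1 : ℝ) ≤ (T1 l : ℝ) := by exact_mod_cast h0
  have p0 : (1 : ℝ) ≤ (T0 l : ℝ) := by exact_mod_cast h0'
  have hw0 : 0 ≤ w := by rw [hw]; positivity
  have hz0 : 0 ≤ z := by rw [hz]; positivity
  have hs1 : (0 : ℝ) ≤ (S1 l : ℝ) := by positivity
  have hs0 : (0 : ℝ) ≤ (S0 l : ℝ) := by positivity
  obtain ⟨a, ha⟩ : ∃ a : ℝ, a = (S1 l : ℝ) - w * (w + 1) / 6 := ⟨_, rfl⟩
  obtain ⟨b, hb⟩ : ∃ b : ℝ, b = (S0 l : ℝ) - z * (z + 1) / 6 := ⟨_, rfl⟩
  have hw2 : 2 ≤ w := by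
    by_contra hcon
    push Not at hcon
    have hc : l.count true < 2 := by
      have : (l.count true : ℝ) < 2 := by rw [← hw]; exact hcon
      exact_mod_cast this
    have hc' : l.count true = 0 ∨ l.count true = 1 := by omega
    rcases hc' with h | h
    · rw [h] at hw
      have hw' : w = 0 := by simpa using hw
      rw [hw'] at hT1
      linarith
    · rw [h] at hw
      have hw' : w = 1 := by simpa using hw
      rw [hw'] at hT1
      linarith
  have hz2 : 2 ≤ z := by
    by_contra hcon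
    push Not at hcon
    have hc : l.count false < 2 := by
      have : (l.count false : ℝ) < 2 := by rw [← hz]; exact hcon
      exact_mod_cast this
    have hc' : l.count false = 0 ∨ l.count false = 1 := by omega
    rcases hc' with h | h
    · rw [h] at hz
      have hz' : z = 0 := by simpa using hz
      rw [hz'] at hT0
      linarith
    · rw [h] at hz
      have hz' : z = 1 := by simpa using hz
      rw [hz'] at hT0
      linarith
  have e1 : 6 * (T1 l : ℝ) ≤ 3 * (w - 1) * a := by
    calc _ ≤ _ := hT1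
      _ = 3 * (w - 1) * a := by rw [ha]; ring
  have e0 : 6 * (T0 l : ℝ) ≤ 3 * (z - 1) * b := by
    calc _ ≤ _ := hT0
      _ = 3 * (z - 1) * b := by rw [hb]; ring
  have ha0 : 0 < a := by
    by_contra hcon
    push Not at hcon
    have : 3 * (w - 1) * a ≤ 0 := mul_nonpos_of_nonneg_of_nonpos (by linarith) hcon
    linarith
  have hb0 : 0 < b := by
    by_contra hcon
    push Not at hcon
    have : 3 * (z - 1) * b ≤ 0 := mul_nonpos_of_nonneg_of_nonpos (by linarith) hcon
    linarith
  have hab : a + b ≤ (n ^ 2 + w * z) / 3 := by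
    have : a + b = (n ^ 2 - 2 * n + w * z) / 3 := by
      have : a + b = ((S1 l : ℝ) + (S0 l : ℝ)) - (w * (w + 1) / 6 + z * (z + 1) / 6) := by
        rw [ha, hb]; ring
      rw [this, hSum, hwz]; ring
    rw [this]; linarith
  have hfin := final_ineq w z (6 * (T1 l : ℝ)) (6 * (T0 l : ℝ)) a b n hwz hn29 (by linarith)
    (by linarith) ha0 hb0 (by linarith) (by linarith) (by nlinarith) (by nlinarith) hab
  have q1 : 6 * (T1 l : ℝ) + 3 * (S1 l : ℝ) + (3 * w ^ 2 - w) / 2 =
      6 * (T1 l : ℝ) + 3 * a + 2 * w ^ 2 := by rw [ha]; ring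
  have q0 : 6 * (T0 l : ℝ) + 3 * (S0 l : ℝ) + (3 * z ^ 2 - z) / 2 =
      6 * (T0 l : ℝ) + 3 * b + 2 * z ^ 2 := by rw [hb]; ring
  rw [q1, q0] at hXY
  have hn4 : 0 < n ^ 4 := by positivity
  have r1 : 6 * (T1 l : ℝ) * (6 * (T0 l : ℝ)) * n ^ 4 ≤
      gam * n ^ 6 * ((n - 1) ^ 2 * (n - 2) ^ 2) :=
    le_trans hfin (mul_le_mul_of_nonneg_right hXY (by positivity))
  have r2 : (T1 l : ℝ) * (T0 l : ℝ) * n ^ 4 ≤ gam * (n * (n - 1) * (n - 2) / 6) ^ 2 * n ^ 4 := by
    have : gam * n ^ 6 * ((n - 1) ^ 2 * (n - 2) ^ 2) =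
      36 * (gam * (n * (n - 1) * (n - 2) / 6) ^ 2 * n ^ 4) := by ring
    rw [this] at r1
    linarith
  exact le_of_mul_le_mul_right r2 hn4

end Pool.Agent.H28.CrossTriples
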