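import Mathlib

set_option autoImplicit false

namespace Pool.Agent.H28.R4

open Finset
open scoped Classical

variable {V : Type}

/-- no arc from `U \ Q` into `Q` -/
def ClosedIn (D : V → V → Prop) (U Q : Finset V) : Prop :=
  ∀ w ∈ U, w ∉ Q → ∀ x ∈ Q, ¬ D w x

lemma bool_aux (ab ba bc cb ac ca : Prop) (s1 : ab ∨ ba) (s2 : bc ∨ cb) (s3 : ac ∨ ca)
    (h1 : ab ∨ ac) (h2 : ba ∨ bc) (h3 : ca ∨ cb) (h4 : ba ∨ ca) (h5 : ab ∨ cb) (h6 : ac ∨ bc) :
    (ab ∧ bc ∧ ca) ∨ (ac ∧ cb ∧ ba) := by
  by_cases ab <;> by_cases bc <;> by_cases ca <;> simp_all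

/-- A strong semicomplete digraph on three vertices has a Hamiltonian cycle. -/
lemma strong_three (D : V → V → Prop) (Q : Finset V) (hQ3 : Q.card = 3)
    (sQ : ∀ x ∈ Q, ∀ y ∈ Q, x ≠ y → D x y ∨ D y x)
    (hback : ∀ x ∈ Q, ∃ y ∈ Q, y ≠ x ∧ D x y)
    (hforth : ∀ x ∈ Q, ∃ y ∈ Q, y ≠ x ∧ D y x) :
    ∃ a ∈ Q, ∃ b ∈ Q, ∃ c ∈ Q, a ≠ b ∧ b ≠ c ∧ a ≠ c ∧ D a b ∧ D b c ∧ D c a ∧
            Q = {a, b, c} := by
  obtain ⟨a, b, c, hab, hac, hbc, hQe⟩ := card_eq_three.1 hQ3
  have ha : a ∈ Q := by rw [hQe]; simp
  have hb : b ∈ Q := by rw [hQe]; simp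
  have hc : c ∈ Q := by rw [hQe]; simp
  have memQ : ∀ x, x ∈ Q ↔ x = a ∨ x = b ∨ x = c := by
    intro x; rw [hQe]; simp
  have hQe' : Q = {a, c, b} := by
    rw [hQe]; ext x; simp only [mem_insert, mem_singleton]; tauto
  have s1 := sQ a ha b hb hab
  have s2 := sQ b hb c hc hbc
  have s3 := sQ a ha c hc hac
  have aux : ∀ (F : V → Prop) (x : V), (∃ y ∈ Q, y ≠ x ∧ F y) →
      (a ≠ x ∧ F a) ∨ (b ≠ x ∧ F b) ∨ (c ≠ x ∧ F c) := by
    rintro F x ⟨y, hy, h1, h2⟩
    rw [memQ] at hy
    rcases hy with hy | hy | hy
    · left; rw [← hy]; exact ⟨h1, h2⟩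
    · right; left; rw [← hy]; exact ⟨h1, h2⟩
    · right; right; rw [← hy]; exact ⟨h1, h2⟩
  have h1 : D a b ∨ D a c := by
    rcases aux (fun y => D a y) a (hback a ha) with h | h | h
    · exact absurd rfl h.1
    · exact Or.inl h.2
    · exact Or.inr h.2
  have h2 : D b a ∨ D b c := by
    rcases aux (fun y => D b y) b (hback b hb) with h | h | h
    · exact Or.inl h.2
    · exact absurd rfl h.1
    · exact Or.inr h.2
  have h3 : D c a ∨ D c b := by
    rcases aux (fun y => D c y) c (hback c hc) with h | h | h
    · exact Or.inl h.2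
    · exact Or.inr h.2
    · exact absurd rfl h.1
  have h4 : D b a ∨ D c a := by
    rcases aux (fun y => D y a) a (hforth a ha) with h | h | h
    · exact absurd rfl h.1
    · exact Or.inl h.2
    · exact Or.inr h.2
  have h5 : D a b ∨ D c b := by
    rcases aux (fun y => D y b) b (hforth b hb) with h | h | h
    · exact Or.inl h.2
    · exact absurd rfl h.1
    · exact Or.inr h.2
  have h6 : D a c ∨ D b c := by
    rcases aux (fun y => D y c) c (hforth c hc) with h | h | h
    · exact Or.inl h.2
    · exact Or.inr h.2
    · exact absurd rfl h.1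
  have : (D a b ∧ D b c ∧ D c a) ∨ (D a c ∧ D c b ∧ D b a) :=
    bool_aux _ _ _ _ _ _ s1 s2 s3 h1 h2 h3 h4 h5 h6
  rcases this with ⟨k1, k2, k3⟩ | ⟨k1, k2, k3⟩
  · exact ⟨a, ha, b, hb, c, hc, hab, hbc, hac, k1, k2, k3, hQe⟩
  · exact ⟨a, ha, c, hc, b, hb, hac, hbc.symm, hab, k1, k2, k3, hQe'⟩

/-- no consecutive pair -/
lemma no_consec (p1 p2 p3 q1 q2 q3 : Prop) (n1 : ¬ (q1 ∧ p2)) (n2 : ¬ (q2 ∧ p3))
    (n3 : ¬ (q3 ∧ p1)) (s1 : p1 ∨ q1) (s2 : p2 ∨ q2) (s3 : p3 ∨ q3) (t1 : p1 ∨ p2 ∨ p3)
    (t2 : q1 ∨ q2 ∨ q3) : False := by tauto

/-- A semicomplete digraph without 4-cycles has an initial strong component with at most three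
vertices. -/
theorem initial_set (D : V → V → Prop) :
    ∀ U : Finset V, U.Nonempty → (∀ x ∈ U, ∀ y ∈ U, x ≠ y → D x y ∨ D y x) →
      (∀ a ∈ U, ∀ b ∈ U, ∀ c ∈ U, ∀ d ∈ U, a ≠ c → b ≠ d → D a b → D b c → D c d → D d a → False) →
      ∃ P : Finset V, P ⊆ U ∧ P.Nonempty ∧ P.card ≤ 3 ∧ ClosedIn D U P ∧
        (∀ Q : Finset V, Q ⊆ P → Q.Nonempty → ClosedIn D U Q → Q = P) := by
  intro U
  induction U using Finset.induction_on with
  | empty => intro h; exact absurd h (by simp)
  | insert w U hw ih =>
    intro _ semi no4
    rcases U.eq_empty_or_nonempty with hU | hU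
    · subst hU
      refine ⟨{w}, by simp, by simp, by simp, ?_, ?_⟩
      · intro z hz hzw x hx
        simp at hz hzw
        exact absurd hz hzw
      · intro Q hQ hne _
        rcases subset_singleton_iff.1 hQ with h | h
        · exact absurd hne (by rw [h]; simp)
        · exact h
    have sub : ∀ x ∈ U, x ∈ insert w U := fun x hx => mem_insert_of_mem hx
    obtain ⟨Q, hQU, hQne, hQ3, hQc, hQmin⟩ := ih hU
      (fun x hx y hy hxy => semi x (sub x hx) y (sub y hy) hxy)
      (fun a ha b hb c hc d hd => no4 a (sub a ha) b (sub b hb) c (sub c hc) d (sub d hd))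
    have wU : w ∈ insert w U := mem_insert_self w U
    have hwQ : w ∉ Q := fun h => hw (hQU h)
    -- arcs out of `Q` to the rest of `U`
    have hout : ∀ y ∈ U, y ∉ Q → ∀ q ∈ Q, D q y := by
      intro y hy hyQ q hq
      have hne : q ≠ y := fun e => hyQ (e ▸ hq)
      rcases semi q (sub q (hQU hq)) y (sub y hy) hne with h | h
      · exact h
      · exact absurd h (hQc y hy hyQ q hq)
    by_cases hA : ∀ q ∈ Q, ¬ D w q
    · -- case A
      refine ⟨Q, fun x hx => sub x (hQU hx), hQne, hQ3, ?_, ?_⟩
      · intro z hz hzQ x hx
        rw [mem_insert] at hz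
        rcases hz with rfl | hz
        · exact hA x hx
        · exact hQc z hz hzQ x hx
      · intro R hR hRne hRc
        exact hQmin R hR hRne (fun z hz hzR x hx => hRc z (sub z hz) hzR x hx)
    push Not at hA
    obtain ⟨q, hq, hwq⟩ := hA
    by_cases hB : ∀ y ∈ U, ¬ D y w
    · refine ⟨{w}, by simp, by simp, by simp, ?_, ?_⟩
      · intro z hz hzw x hx
        rw [mem_singleton] at hx hzw
        rw [mem_insert] at hz
        rcases hz with hz | hz
        · exact absurd hz hzw
        · rw [hx]; exact hB z hz
      · intro R hR hne _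
        rcases subset_singleton_iff.1 hR with h | h
        · exact absurd hne (by rw [h]; simp)
        · exact h
    by_cases hC : ∃ y ∈ U, y ∉ Q ∧ D y w
    · -- an in-neighbour outside `Q`
      obtain ⟨y, hy, hyQ, hyw⟩ := hC
      have hqU : q ∈ U := hQU hq
      have hqy : D q y := hout y hy hyQ q hq
      have hqney : q ≠ y := fun e => hyQ (e ▸ hq)
      have hwney : w ≠ y := fun e => hw (e ▸ hy)
      have hwneq : w ≠ q := fun e => hw (e ▸ hqU)
      -- `Q = {q}`
      have hQq : Q = {q} := by
        by_contra hne
        have hE : (Q.erase q).Nonempty := by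
          rw [nonempty_iff_ne_empty]
          intro he
          apply hne
          rw [← insert_erase hq, he]; rfl
        have hcl : ClosedIn D U (Q.erase q) := by
          intro z hz hzE x hx hzx
          have hxQ := mem_of_mem_erase hx
          by_cases hzQ : z ∈ Q
          · have hzq : z = q := by
              by_contra hzq
              exact hzE (mem_erase.2 ⟨hzq, hzQ⟩)
            subst hzq
            -- z → x → y → w → z
            have hxy : D x y := hout y hy hyQ x hxQ
            have hxw : x ≠ w := fun e => hw (e ▸ hQU hxQ)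
            exact no4 z (sub z hqU) x (sub x (hQU hxQ)) y (sub y hy) w wU hqney hxw
              hzx hxy hyw hwq
          · exact hQc z hz hzQ x hxQ hzx
        have := hQmin (Q.erase q) (erase_subset q Q) hE hcl
        rw [← this] at hq
        exact (notMem_erase q Q) hq
      subst hQq
      have honly : ∀ z ∈ U, z ≠ q → D q z := by
        intro z hz hzq
        exact hout z hz (by simpa using hzq) q (mem_singleton_self q)
      have hnot : ∀ z ∈ U, z ≠ q → ¬ D z q := by
        intro z hz hzq
        exact hQc z hz (by simpa using hzq) q (mem_singleton_self q)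
      refine ⟨{q, y, w}, ?_, by simp, card_le_three, ?_, ?_⟩
      · intro x hx
        simp only [mem_insert, mem_singleton] at hx
        rcases hx with rfl | rfl | rfl
        · exact sub _ hqU
        · exact sub _ hy
        · exact wU
      · intro z hz hzP x hx hzx
        simp only [mem_insert, mem_singleton, not_or] at hzP
        obtain ⟨hzq, hzy, hzw⟩ := hzP
        have hzU : z ∈ U := by
          rw [mem_insert] at hz
          rcases hz with h | h
          · exact absurd h hzw
          · exact h
        simp only [mem_insert, mem_singleton] at hx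
        have hqz := honly z hzU hzq
        rcases hx with rfl | rfl | rfl
        · exact hnot z hzU hzq hzx
        · -- z → x=y : z → y → w → q → z
          exact no4 z hz x (sub x hy) w wU q (sub q hqU) hzw (fun e => hqney e.symm) hzx hyw hwq hqz
        · -- z → w
          rcases semi z hz y (sub y hy) hzy with h | h
          · -- q → z → y → w → q
            exact no4 q (sub q hqU) z hz y (sub y hy) x wU hqney (fun e => hzw e) hqz h hyw hwq
          · -- q → y → z → w → q
            exact no4 q (sub q hqU) y (sub y hy) z hz x wU (fun e => hzq e.symm)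
              (fun e => hwney e.symm) hqy h hzx hwq
      · intro R hR hRne hRc
        have c1 : q ∈ R → w ∈ R := by
          intro h1
          by_contra h2
          exact hRc w wU h2 q h1 hwq
        have c2 : w ∈ R → y ∈ R := by
          intro h1
          by_contra h2
          exact hRc y (sub y hy) h2 w h1 hyw
        have c3 : y ∈ R → q ∈ R := by
          intro h1
          by_contra h2
          exact hRc q (sub q hqU) h2 y h1 hqy
        have hq' : q ∈ R := by
          obtain ⟨x, hx⟩ := hRne
          have := hR hx
          simp only [mem_insert, mem_singleton] at this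
          rcases this with rfl | rfl | rfl
          · exact hx
          · exact c3 hx
          · exact c3 (c2 hx)
        apply Subset.antisymm hR
        intro x hx
        simp only [mem_insert, mem_singleton] at hx
        rcases hx with rfl | rfl | rfl
        · exact hq'
        · exact c2 (c1 hq')
        · exact c1 hq'
    · -- all in-neighbours of `w` lie in `Q`
      push Not at hB hC
      obtain ⟨q', hq'U, hq'w⟩ := hB
      have hq' : q' ∈ Q := by
        by_contra h
        exact hC q' hq'U h hq'w
      have hclosed : ClosedIn D (insert w U) (insert w Q) := by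
        intro z hz hzP x hx hzx
        rw [mem_insert, not_or] at hzP
        rw [mem_insert] at hz hx
        have hzU : z ∈ U := by
          rcases hz with h | h
          · exact absurd h hzP.1
          · exact h
        rcases hx with rfl | hx
        · exact hC z hzU hzP.2 hzx
        · exact hQc z hzU hzP.2 x hx hzx
      have hmin : ∀ R : Finset V, R ⊆ insert w Q → R.Nonempty → ClosedIn D (insert w U) R →
          R = insert w Q := by
        intro R hR hRne hRc
        have hinter : (R ∩ Q).Nonempty := by
          obtain ⟨x, hx⟩ := hRne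
          have hx' := hR hx
          rw [mem_insert] at hx'
          rcases hx' with rfl | hx'
          · have : q' ∈ R := by
              by_contra h
              exact hRc q' (sub q' hq'U) h x hx hq'w
            exact ⟨q', mem_inter.2 ⟨this, hq'⟩⟩
          · exact ⟨x, mem_inter.2 ⟨hx, hx'⟩⟩
        have hRQ : R ∩ Q = Q := by
          apply hQmin _ inter_subset_right hinter
          intro z hz hzR x hx hzx
          rw [mem_inter] at hx hzR
          by_cases hzR' : z ∈ R
          · exact hQc z hz (fun h => hzR ⟨hzR', h⟩) x hx.2 hzx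
          · exact hRc z (sub z hz) hzR' x hx.1 hzx
        have hQR : Q ⊆ R := by
          rw [← hRQ]; exact inter_subset_left
        have hwR : w ∈ R := by
          by_contra h
          exact hRc w wU h q (hQR hq) hwq
        apply Subset.antisymm hR
        intro x hx
        rw [mem_insert] at hx
        rcases hx with rfl | hx
        · exact hwR
        · exact hQR hx
      refine ⟨insert w Q, ?_, by simp, ?_, hclosed, hmin⟩
      · intro x hx
        rw [mem_insert] at hx
        rcases hx with rfl | hx
        · exact wU
        · exact sub x (hQU hx)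
      · -- size bound
        rw [card_insert_of_notMem hwQ]
        by_contra hcard
        have hQ3' : Q.card = 3 := by omega
        -- every vertex of `Q` has an out-neighbour in `Q`
        have hback : ∀ x ∈ Q, ∃ y ∈ Q, y ≠ x ∧ D x y := by
          intro x hx
          by_contra hcon
          push Not at hcon
          have hE : (Q.erase x).Nonempty := by
            apply card_pos.1
            rw [card_erase_of_mem hx]; omega
          have : Q.erase x = Q := by
            apply hQmin _ (erase_subset x Q) hE
            intro z hz hzE y hy hzy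
            have hyQ := mem_of_mem_erase hy
            by_cases hzQ : z ∈ Q
            · have hzx : z = x := by
                by_contra hzx
                exact hzE (mem_erase.2 ⟨hzx, hzQ⟩)
              subst hzx
              exact hcon y hyQ (ne_of_mem_erase hy) hzy
            · exact hQc z hz hzQ y hyQ hzy
          rw [← this] at hx
          exact (notMem_erase x _) hx
        have hforth : ∀ x ∈ Q, ∃ y ∈ Q, y ≠ x ∧ D y x := by
          intro x hx
          by_contra hcon
          push Not at hcon
          have : ({x} : Finset V) = Q := by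
            apply hQmin _ (singleton_subset_iff.2 hx) (singleton_nonempty x)
            intro z hz hzE y hy hzy
            rw [mem_singleton] at hy hzE
            subst hy
            by_cases hzQ : z ∈ Q
            · exact hcon z hzQ hzE hzy
            · exact hQc z hz hzQ y hx hzy
          rw [← this] at hQ3'
          simp at hQ3'
        -- a 3-cycle
        have hcyc := strong_three D Q hQ3'
          (fun x hx y hy h => semi x (sub x (hQU hx)) y (sub y (hQU hy)) h) hback hforth
        obtain ⟨a, ha, b, hb, c, hc, hab, hbc, hac, k1, k2, k3, hQe⟩ := hcyc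
        have memQ : ∀ x, x ∈ Q ↔ x = a ∨ x = b ∨ x = c := by
          intro x; rw [hQe]; simp
        have aU := sub a (hQU ha)
        have bU := sub b (hQU hb)
        have cU := sub c (hQU hc)
        have hwa : w ≠ a := fun e => hwQ (e ▸ ha)
        have hwb : w ≠ b := fun e => hwQ (e ▸ hb)
        have hwc : w ≠ c := fun e => hwQ (e ▸ hc)
        -- w → x' , x → w for consecutive x → x' is impossible
        have n1 : ¬ (D a w ∧ D w b) := fun ⟨u, v⟩ =>
          no4 w wU b bU c cU a aU hwc hab.symm v k2 k3 u
        have n2 : ¬ (D b w ∧ D w c) := fun ⟨u, v⟩ =>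
          no4 w wU c cU a aU b bU hwa hbc.symm v k3 k1 u
        have n3 : ¬ (D c w ∧ D w a) := fun ⟨u, v⟩ =>
          no4 w wU a aU b bU c cU hwb hac v k1 k2 u
        have s1 := semi w wU a aU hwa
        have s2 := semi w wU b bU hwb
        have s3 := semi w wU c cU hwc
        rw [memQ] at hq hq'
        have t1 : D w a ∨ D w b ∨ D w c := by
          rcases hq with rfl | rfl | rfl
          · exact Or.inl hwq
          · exact Or.inr (Or.inl hwq)
          · exact Or.inr (Or.inr hwq)
        have t2 : D a w ∨ D b w ∨ D c w := by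
          rcases hq' with rfl | rfl | rfl
          · exact Or.inl hq'w
          · exact Or.inr (Or.inl hq'w)
          · exact Or.inr (Or.inr hq'w)
        exact no_consec _ _ _ _ _ _ n1 n2 n3 s1 s2 s3 t1 t2

end Pool.Agent.H28.R4
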