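import Mathlib

set_option autoImplicit false

namespace Pool.Agent.H28.R4

/-- the extremal value -/
def g (m : ℕ) : ℕ :=
  if m % 3 = 0 then 12 * (m / 3) ^ 3
  else if m % 3 = 1 then 3 * (m / 3) * (2 * (m / 3) + 1) ^ 2
  else (m / 3) * (2 * (m / 3) + 2) ^ 2 + 2 * (m / 3 + 1) * (2 * (m / 3) + 1) ^ 2

lemma g_spec (m : ℕ) : 9 * (g m : ℤ) + ((m : ℤ) % 3) * (3 * m + 1) = 4 * (m : ℤ) ^ 3 := by
  obtain ⟨a, r, hr, hm⟩ : ∃ a r, r < 3 ∧ m = 3 * a + r :=
    ⟨m / 3, m % 3, Nat.mod_lt _ (by norm_num), (Nat.div_add_mod m 3).symm⟩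
  subst hm
  have h1 : (3 * a + r) % 3 = r := by omega
  have h2 : (3 * a + r) / 3 = a := by omega
  have h3 : (((3 * a + r : ℕ)) : ℤ) % 3 = r := by exact_mod_cast h1
  unfold g
  rw [h3, h1, h2]
  interval_cases r
  · simp only [if_true]; push_cast; ring
  · rw [if_neg (by norm_num), if_pos rfl]; push_cast; ring
  · rw [if_neg (by norm_num), if_neg (by norm_num)]; push_cast; ring

/-- two coordinates nonnegative -/
lemma core_pos (s x y : ℤ) (hs : 0 ≤ s) (hx : 0 ≤ x) (hy : 0 ≤ y) :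
    2 * s * (x ^ 2 + x * y + y ^ 2) ≤
    s * (x ^ 2 + y ^ 2 + (-(x + y)) ^ 2) - x * y * (-(x + y)) := by
  have : 0 ≤ x * y * (x + y) := by positivity
  nlinarith

/-- two coordinates nonpositive, written `-u`, `-v` -/
lemma core_neg (s u v : ℤ) (hu : 0 ≤ u) (hv : 0 ≤ v) (hus : u ≤ s) (hvs : v ≤ s) :
    s * (u + v) ^ 2 ≤
    s * ((-u) ^ 2 + (-v) ^ 2 + (u + v) ^ 2) - (-u) * (-v) * (u + v) := by
  have h1 : 0 ≤ u ^ 2 * (s - v) := by
    have : 0 ≤ s - v := by linarith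
    positivity
  have h2 : 0 ≤ v ^ 2 * (s - u) := by
    have : 0 ≤ s - u := by linarith
    positivity
  nlinarith

/-- the cubic part, two given coordinates of the same sign -/
lemma part2 (s x y z : ℤ) (hs : 0 ≤ s) (hx : -s ≤ x) (hy : -s ≤ y) (hz : z = -(x + y))
    (hxs : (x + s) % 3 = 0) (hys : (y + s) % 3 = 0) (hsgn : (0 ≤ x ∧ 0 ≤ y) ∨ (x ≤ 0 ∧ y ≤ 0)) :
    (s % 3 = 0 → 0 ≤ s * (x ^ 2 + y ^ 2 + z ^ 2) - x * y * z) ∧
    (s % 3 = 1 → 6 * s - 2 ≤ s * (x ^ 2 + y ^ 2 + z ^ 2) - x * y * z ∧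
      6 ≤ x ^ 2 + y ^ 2 + z ^ 2) ∧
    (s % 3 = 2 → 6 * s + 2 ≤ s * (x ^ 2 + y ^ 2 + z ^ 2) - x * y * z ∧
      6 ≤ x ^ 2 + y ^ 2 + z ^ 2) := by
  subst hz
  rcases hsgn with ⟨h1, h2⟩ | ⟨h1, h2⟩
  · have hc := core_pos s x y hs h1 h2
    refine ⟨fun _ => ?_, fun h => ?_, fun h => ?_⟩
    · have : 0 ≤ 2 * s * (x ^ 2 + x * y + y ^ 2) := by positivity
      linarith
    · have hx2 : 2 ≤ x := by omega
      have hy2 : 2 ≤ y := by omega
      constructor
      · have : 12 ≤ x ^ 2 + x * y + y ^ 2 := by nlinarith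
        nlinarith
      · nlinarith
    · have hx2 : 1 ≤ x := by omega
      have hy2 : 1 ≤ y := by omega
      constructor
      · have h3 : 3 ≤ x ^ 2 + x * y + y ^ 2 := by nlinarith
        have h4 : 2 ≤ x * y * (x + y) := by nlinarith [mul_pos (by linarith : 0 < x) (by linarith : 0 < y)]
        nlinarith
      · nlinarith
  · obtain ⟨u, hu⟩ : ∃ u, u = -x := ⟨_, rfl⟩
    obtain ⟨v, hv⟩ : ∃ v, v = -y := ⟨_, rfl⟩
    have hxu : x = -u := by linarith
    have hyv : y = -v := by linarith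
    subst hxu; subst hyv
    have hu0 : 0 ≤ u := by linarith
    have hv0 : 0 ≤ v := by linarith
    have hc := core_neg s u v hu0 hv0 (by linarith) (by linarith)
    have e : -(-u + -v) = u + v := by ring
    rw [e]
    refine ⟨fun _ => ?_, fun h => ?_, fun h => ?_⟩
    · have : 0 ≤ s * (u + v) ^ 2 := by positivity
      linarith
    · have hu1 : 1 ≤ u := by omega
      have hv1 : 1 ≤ v := by omega
      have hs1 : 1 ≤ s := by omega
      constructor
      · by_cases h5 : 5 ≤ u + v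
        · have : s * 25 ≤ s * (u + v) ^ 2 := by
            apply mul_le_mul_of_nonneg_left _ hs
            nlinarith
          linarith
        · have hu' : u = 1 := by omega
          have hv' : v = 1 := by omega
          subst hu'; subst hv'
          linarith
      · nlinarith
    · have hu1 : 2 ≤ u := by omega
      have hv1 : 2 ≤ v := by omega
      have hs1 : 2 ≤ s := by omega
      constructor
      · have : s * 16 ≤ s * (u + v) ^ 2 := by
          apply mul_le_mul_of_nonneg_left _ hs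
          nlinarith
        linarith
      · nlinarith

lemma part3 (s x y z : ℤ) (hs : 0 ≤ s) (hx : -s ≤ x) (hy : -s ≤ y) (hz : -s ≤ z)
    (hsum : x + y + z = 0)
    (hxs : (x + s) % 3 = 0) (hys : (y + s) % 3 = 0) (hzs : (z + s) % 3 = 0) :
    (s % 3 = 0 → 0 ≤ s * (x ^ 2 + y ^ 2 + z ^ 2) - x * y * z) ∧
    (s % 3 = 1 → 6 * s - 2 ≤ s * (x ^ 2 + y ^ 2 + z ^ 2) - x * y * z ∧
      6 ≤ x ^ 2 + y ^ 2 + z ^ 2) ∧
    (s % 3 = 2 → 6 * s + 2 ≤ s * (x ^ 2 + y ^ 2 + z ^ 2) - x * y * z ∧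
      6 ≤ x ^ 2 + y ^ 2 + z ^ 2) := by
  by_cases hxy : (0 ≤ x ∧ 0 ≤ y) ∨ (x ≤ 0 ∧ y ≤ 0)
  · exact part2 s x y z hs hx hy (by linarith) hxs hys hxy
  by_cases hyz : (0 ≤ y ∧ 0 ≤ z) ∨ (y ≤ 0 ∧ z ≤ 0)
  · have := part2 s y z x hs hy hz (by linarith) hys hzs hyz
    have e1 : y ^ 2 + z ^ 2 + x ^ 2 = x ^ 2 + y ^ 2 + z ^ 2 := by ring
    have e2 : y * z * x = x * y * z := by ring
    rw [e1, e2] at this
    exact this
  by_cases hxz : (0 ≤ x ∧ 0 ≤ z) ∨ (x ≤ 0 ∧ z ≤ 0)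
  · have := part2 s x z y hs hx hz (by linarith) hxs hzs hxz
    have e1 : x ^ 2 + z ^ 2 + y ^ 2 = x ^ 2 + y ^ 2 + z ^ 2 := by ring
    have e2 : x * z * y = x * y * z := by ring
    rw [e1, e2] at this
    exact this
  exfalso
  omega

/-- The numerical inequality behind the induction. -/
theorem numeric (a b c r : ℕ) :
    a * (b + c + r) ^ 2 + b * (a + c + r) ^ 2 + c * (a + b + r) ^ 2 + g r ≤ g (a + b + c + r) := by
  obtain ⟨s, hs⟩ : ∃ s : ℤ, s = a + b + c := ⟨_, rfl⟩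
  obtain ⟨x, hx⟩ : ∃ x : ℤ, x = 3 * a - s := ⟨_, rfl⟩
  obtain ⟨y, hy⟩ : ∃ y : ℤ, y = 3 * b - s := ⟨_, rfl⟩
  obtain ⟨z, hz⟩ : ∃ z : ℤ, z = 3 * c - s := ⟨_, rfl⟩
  have ha0 : (0 : ℤ) ≤ a := by positivity
  have hb0 : (0 : ℤ) ≤ b := by positivity
  have hc0 : (0 : ℤ) ≤ c := by positivity
  have hr0 : (0 : ℤ) ≤ r := by positivity
  have hs0 : 0 ≤ s := by linarith
  have h3 := part3 s x y z hs0 (by linarith) (by linarith) (by linarith) (by linarith)
    (by omega) (by omega) (by omega)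
  have g1 := g_spec r
  have g2 := g_spec (a + b + c + r)
  have key : 4 * ((a : ℤ) + b + c + r) ^ 3 - 4 * (r : ℤ) ^ 3
      - 9 * ((a : ℤ) * (b + c + r) ^ 2 + b * (a + c + r) ^ 2 + c * (a + b + r) ^ 2) =
      (s + 2 * r) * (x ^ 2 + y ^ 2 + z ^ 2) - x * y * z + 3 * s * r ^ 2 := by
    rw [hx, hy, hz, hs]; ring
  have goal' : ((a : ℤ) * (b + c + r) ^ 2 + b * (a + c + r) ^ 2 + c * (a + b + r) ^ 2) + g r ≤
      g (a + b + c + r) := by
    push_cast at g2
    -- residues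
    have hsm : s % 3 = 0 ∨ s % 3 = 1 ∨ s % 3 = 2 := by omega
    have hrm : (r : ℤ) % 3 = 0 ∨ (r : ℤ) % 3 = 1 ∨ (r : ℤ) % 3 = 2 := by omega
    have hm : ((a : ℤ) + b + c + r) % 3 = (s % 3 + (r : ℤ) % 3) % 3 := by
      rw [hs]; omega
    rw [hm] at g2
    have hm2 : (a : ℤ) + b + c + r = s + r := by rw [hs]
    rw [hm2] at g2 key
    obtain ⟨p0, p1, p2⟩ := h3
    obtain ⟨E, hE⟩ : ∃ E : ℤ, E = (a : ℤ) * (b + c + r) ^ 2 + b * (a + c + r) ^ 2
      + c * (a + b + r) ^ 2 := ⟨_, rfl⟩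
    rw [← hE] at key ⊢
    obtain ⟨Q, hQ⟩ : ∃ Q : ℤ, Q = x ^ 2 + y ^ 2 + z ^ 2 := ⟨_, rfl⟩
    obtain ⟨W, hWW⟩ : ∃ W : ℤ, W = x * y * z := ⟨_, rfl⟩
    have hQ0 : 0 ≤ Q := by rw [hQ]; positivity
    rw [← hQ, ← hWW] at key p0 p1 p2
    have hsr : 0 ≤ s * (r : ℤ) ^ 2 := by positivity
    have hrQ : 0 ≤ (r : ℤ) * Q := by positivity
    have hsrr : 0 ≤ s * (r : ℤ) := by positivity
    rcases hsm with h | h | h
    · have q0 := p0 h
      rw [h] at g2
      rcases hrm with h' | h' | h'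
      · rw [h'] at g1 g2
        norm_num at g1 g2
        linarith
      · rw [h'] at g1 g2
        norm_num at g1 g2
        have hr1 : (1 : ℤ) ≤ r := by omega
        have : s * 1 ≤ s * (r : ℤ) ^ 2 := mul_le_mul_of_nonneg_left (by nlinarith [hr1]) hs0
        linarith
      · rw [h'] at g1 g2
        norm_num at g1 g2
        have hr1 : (2 : ℤ) ≤ r := by omega
        have : s * 4 ≤ s * (r : ℤ) ^ 2 := mul_le_mul_of_nonneg_left (by nlinarith [hr1]) hs0
        linarith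
    · obtain ⟨q1, q2⟩ := p1 h
      have hs1 : 1 ≤ s := by omega
      have hrQ' : (r : ℤ) * 6 ≤ r * Q := mul_le_mul_of_nonneg_left q2 hr0
      rw [h] at g2
      rcases hrm with h' | h' | h'
      · rw [h'] at g1 g2
        norm_num at g1 g2
        linarith
      · rw [h'] at g1 g2
        norm_num at g1 g2
        have hr1 : (1 : ℤ) ≤ r := by omega
        linarith
      · rw [h'] at g1 g2
        norm_num at g1 g2
        linarith
    · obtain ⟨q1, q2⟩ := p2 h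
      have hs1 : 2 ≤ s := by omega
      have hrQ' : (r : ℤ) * 6 ≤ r * Q := mul_le_mul_of_nonneg_left q2 hr0
      rw [h] at g2
      rcases hrm with h' | h' | h'
      · rw [h'] at g1 g2
        norm_num at g1 g2
        linarith
      · rw [h'] at g1 g2
        norm_num at g1 g2
        linarith
      · rw [h'] at g1 g2
        norm_num at g1 g2
        linarith
  exact_mod_cast goal'

end Pool.Agent.H28.R4
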