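import Mathlib
import Pool.Agent.H28.R4Init
import Pool.Agent.H28.R4Num

set_option autoImplicit false

namespace Pool.Agent.H28.R4

open Finset
open scoped Classical

/-- out-degree -/
noncomputable def od {V : Type} [Fintype V] (D : V → V → Prop) (v : V) : ℕ :=
  (univ.filter (fun w => D v w)).card

/-- sum of the squares of the out-degrees -/
noncomputable def fs {V : Type} [Fintype V] (D : V → V → Prop) : ℕ := ∑ v, (od D v) ^ 2

/-- no copy of the strong 4-vertex tournament -/
def Fr {V : Type} (D : V → V → Prop) : Prop :=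
  ∀ a b c d : V, D a b → D b c → D c d → D d a → D a c → D b d → False

/-- indicator -/
noncomputable def ind (p : Prop) : ℤ := if p then 1 else 0

/-- the vertex `u` replaced by a copy of `v` -/
noncomputable def clone {V : Type} (u v : V) (x : V) : V := if x = u then v else x

lemma od_ind {V : Type} [Fintype V] (D : V → V → Prop) (x : V) :
    (od D x : ℤ) = ∑ y, ind (D x y) := by
  unfold od ind
  rw [Finset.sum_boole]

lemma clone_free {V : Type} (D : V → V → Prop) (h : Fr D) (u v : V) :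
    Fr (fun x y => D (clone u v x) (clone u v y)) :=
  fun _ _ _ _ h1 h2 h3 h4 h5 h6 => h _ _ _ _ h1 h2 h3 h4 h5 h6

lemma od_clone {V : Type} [Fintype V] (D : V → V → Prop) (u v : V) (x : V) :
    (od (fun x y => D (clone u v x) (clone u v y)) x : ℤ) =
      (od D (clone u v x) : ℤ) - ind (D (clone u v x) u) + ind (D (clone u v x) v) := by
  rw [od_ind, od_ind]
  rw [← Finset.add_sum_erase univ (fun y => ind (D (clone u v x) (clone u v y))) (mem_univ u)]
  rw [← Finset.add_sum_erase univ (fun y => ind (D (clone u v x) y)) (mem_univ u)]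
  have : ∑ y ∈ univ.erase u, ind (D (clone u v x) (clone u v y)) =
      ∑ y ∈ univ.erase u, ind (D (clone u v x) y) := by
    apply Finset.sum_congr rfl
    intro y hy
    have : y ≠ u := ne_of_mem_erase hy
    have e : clone u v y = y := by unfold clone; rw [if_neg this]
    rw [e]
  rw [this]
  have e : clone u v u = v := by unfold clone; rw [if_pos rfl]
  simp only [e]
  ring

lemma fs_clone {V : Type} [Fintype V] (D : V → V → Prop) (u v : V) (h1 : ¬ D v u)
    (h2 : ¬ D v v) :
    (fs (fun x y => D (clone u v x) (clone u v y)) : ℤ) =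
      (∑ x ∈ univ.erase u, ((od D x : ℤ) - ind (D x u) + ind (D x v)) ^ 2) + (od D v : ℤ) ^ 2 := by
  unfold fs
  push_cast
  rw [← Finset.add_sum_erase univ _ (mem_univ u)]
  rw [add_comm]
  congr 1
  · apply Finset.sum_congr rfl
    intro x hx
    rw [od_clone]
    have : x ≠ u := ne_of_mem_erase hx
    have e : clone u v x = x := by unfold clone; rw [if_neg this]
    rw [e]
  · rw [od_clone]
    have e : clone u v u = v := by unfold clone; rw [if_pos rfl]
    rw [e]
    unfold ind
    rw [if_neg h1, if_neg h2]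
    ring

/-- At an optimum, non-adjacent vertices have equal in-neighbourhoods and equal out-degrees. -/
lemma opt_nonadj {V : Type} [Fintype V] (D : V → V → Prop) (irr : ∀ v, ¬ D v v) (hF : Fr D)
    (hmax : ∀ E : V → V → Prop, (∀ v, ¬ E v v) → Fr E → fs E ≤ fs D) (u v : V)
    (huv : ¬ D u v) (hvu : ¬ D v u) : (∀ x, D x u ↔ D x v) ∧ od D u = od D v := by
  by_cases hne : u = v
  · subst hne; exact ⟨fun _ => Iff.rfl, rfl⟩
  have m1 : (fs (fun x y => D (clone u v x) (clone u v y)) : ℤ) ≤ fs D := by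
    exact_mod_cast hmax (fun x y => D (clone u v x) (clone u v y)) (fun x => irr _)
      (clone_free D hF u v)
  have m2 : (fs (fun x y => D (clone v u x) (clone v u y)) : ℤ) ≤ fs D := by
    exact_mod_cast hmax (fun x y => D (clone v u x) (clone v u y)) (fun x => irr _)
      (clone_free D hF v u)
  rw [fs_clone D u v hvu (irr v)] at m1
  rw [fs_clone D v u huv (irr u)] at m2
  have e1 : ∑ x ∈ univ.erase u, ((od D x : ℤ) - ind (D x u) + ind (D x v)) ^ 2 =
      ∑ x, ((od D x : ℤ) - ind (D x u) + ind (D x v)) ^ 2 - (od D u : ℤ) ^ 2 := by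
    rw [← Finset.add_sum_erase univ (fun x => ((od D x : ℤ) - ind (D x u) + ind (D x v)) ^ 2)
      (mem_univ u)]
    have : ind (D u u) = 0 := if_neg (irr u)
    have h' : ind (D u v) = 0 := if_neg huv
    rw [this, h']; ring
  have e2 : ∑ x ∈ univ.erase v, ((od D x : ℤ) - ind (D x v) + ind (D x u)) ^ 2 =
      ∑ x, ((od D x : ℤ) - ind (D x v) + ind (D x u)) ^ 2 - (od D v : ℤ) ^ 2 := by
    rw [← Finset.add_sum_erase univ (fun x => ((od D x : ℤ) - ind (D x v) + ind (D x u)) ^ 2)
      (mem_univ v)]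
    have : ind (D v v) = 0 := if_neg (irr v)
    have h' : ind (D v u) = 0 := if_neg hvu
    rw [this, h']; ring
  rw [e1] at m1
  rw [e2] at m2
  have hfs : (fs D : ℤ) = ∑ x, (od D x : ℤ) ^ 2 := by unfold fs; push_cast; rfl
  have e3 : ∑ x, ((od D x : ℤ) - ind (D x u) + ind (D x v)) ^ 2 +
      ∑ x, ((od D x : ℤ) - ind (D x v) + ind (D x u)) ^ 2 =
      2 * (fs D : ℤ) + 2 * ∑ x, (ind (D x v) - ind (D x u)) ^ 2 := by
    rw [hfs, Finset.mul_sum, Finset.mul_sum, ← Finset.sum_add_distrib, ← Finset.sum_add_distrib]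
    apply Finset.sum_congr rfl
    intro x _
    ring
  have e4 : ∑ x, (ind (D x v) - ind (D x u)) ^ 2 ≤ 0 := by linarith
  have e5 : ∀ x, (ind (D x v) - ind (D x u)) ^ 2 = 0 := by
    have h0 : ∑ x, (ind (D x v) - ind (D x u)) ^ 2 = 0 :=
      le_antisymm e4 (Finset.sum_nonneg (fun x _ => sq_nonneg _))
    intro x
    exact (Finset.sum_eq_zero_iff_of_nonneg (fun x _ => sq_nonneg _)).1 h0 x (mem_univ x)
  have e6 : ∀ x, ind (D x v) = ind (D x u) := by
    intro x
    have := pow_eq_zero_iff (two_ne_zero) |>.1 (e5 x)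
    linarith
  refine ⟨?_, ?_⟩
  · intro x
    have := e6 x
    unfold ind at this
    by_cases h1 : D x u <;> by_cases h2 : D x v <;> simp_all
  · have e7 : ∑ x, ((od D x : ℤ) - ind (D x u) + ind (D x v)) ^ 2 = fs D := by
      rw [hfs]
      apply Finset.sum_congr rfl
      intro x _
      rw [e6 x]; ring
    have e8 : ∑ x, ((od D x : ℤ) - ind (D x v) + ind (D x u)) ^ 2 = fs D := by
      rw [hfs]
      apply Finset.sum_congr rfl
      intro x _
      rw [e6 x]; ring
    rw [e7] at m1
    rw [e8] at m2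
    have h1 : (od D u : ℤ) ^ 2 = (od D v : ℤ) ^ 2 := by linarith
    have h2 : (od D u) ^ 2 = (od D v) ^ 2 := by exact_mod_cast h1
    exact (Nat.pow_left_injective (n := 2) (by norm_num)) h2

/-- blow-up bound -/
theorem upper : ∀ (n : ℕ) (V : Type) [Fintype V] (D : V → V → Prop), Fintype.card V = n →
    (∀ v, ¬ D v v) → Fr D → fs D ≤ g n := by
  intro n
  induction n using Nat.strong_induction_on with
  | _ n ih =>
  intro V _ D₀ hcard irr₀ hF₀
  -- the optimum
  obtain ⟨⟨D, irr, hF⟩, hmax'⟩ := @Finite.exists_max {E : V → V → Prop // (∀ v, ¬ E v v) ∧ Fr E} ℕ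
    inferInstance ⟨⟨D₀, irr₀, hF₀⟩⟩ _ (fun E => fs E.1)
  have hmax : ∀ E : V → V → Prop, (∀ v, ¬ E v v) → Fr E → fs E ≤ fs D :=
    fun E h1 h2 => hmax' ⟨E, h1, h2⟩
  refine le_trans (hmax D₀ irr₀ hF₀) ?_
  rcases isEmpty_or_nonempty V with hV | hV
  · have : fs D = 0 := by unfold fs; simp
    rw [this]; exact Nat.zero_le _
  have hN := opt_nonadj D irr hF hmax
  -- non-adjacency
  let S : Setoid V :=
    { r := fun x y => ¬ D x y ∧ ¬ D y x
      iseqv := by
        refine ⟨fun x => ⟨irr x, irr x⟩, fun h => ⟨h.2, h.1⟩, ?_⟩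
        intro x y z h1 h2
        refine ⟨?_, ?_⟩
        · intro h
          exact h1.1 (((hN y z h2.1 h2.2).1 x).2 h)
        · intro h
          exact h2.2 (((hN x y h1.1 h1.2).1 z).1 h) }
  obtain ⟨ρ, hρ⟩ : ∃ ρ : V → V, ρ = fun x => (Quotient.mk S x).out := ⟨_, rfl⟩
  have hρ1 : ∀ x, ¬ D (ρ x) x ∧ ¬ D x (ρ x) := by
    intro x
    have : S.r (ρ x) x := by rw [hρ]; exact Quotient.exact (Quotient.out_eq _)
    exact this
  have hρ2 : ∀ x y, ¬ D x y → ¬ D y x → ρ x = ρ y := by
    intro x y h1 h2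
    have : Quotient.mk S x = Quotient.mk S y := Quotient.sound ⟨h1, h2⟩
    rw [hρ]; simp only [this]
  have hρρ : ∀ x, ρ (ρ x) = ρ x := fun x => hρ2 _ _ (hρ1 x).1 (hρ1 x).2
  -- twin version
  obtain ⟨E, hE⟩ : ∃ E : V → V → Prop, E = fun x y => D (ρ x) (ρ y) := ⟨_, rfl⟩
  have hE' : ∀ x y, E x y ↔ D (ρ x) y := by
    intro x y
    rw [hE]
    exact (hN (ρ y) y (hρ1 y).1 (hρ1 y).2).1 (ρ x)
  have hodE : ∀ x, od E x = od D x := by
    intro x
    have h1 : od E x = od D (ρ x) := by
      unfold od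
      congr 1
      apply Finset.filter_congr
      intro y _
      exact hE' x y
    rw [h1]
    exact (hN (ρ x) x (hρ1 x).1 (hρ1 x).2).2
  have hfE : fs E = fs D := by
    unfold fs
    exact Finset.sum_congr rfl (fun x _ => by rw [hodE x])
  rw [← hfE]
  have irrE : ∀ x, ¬ E x x := by intro x; rw [hE]; exact irr _
  have hFE : Fr E := by
    rw [hE]
    exact fun a b c d h1 h2 h3 h4 h5 h6 => hF _ _ _ _ h1 h2 h3 h4 h5 h6
  -- representatives
  obtain ⟨T, hT⟩ : ∃ T : Finset V, T = univ.image ρ := ⟨_, rfl⟩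
  have hTρ : ∀ t ∈ T, ρ t = t := by
    intro t ht
    rw [hT, mem_image] at ht
    obtain ⟨x, _, rfl⟩ := ht
    exact hρρ x
  have hTne : T.Nonempty := by
    rw [hT]
    exact Finset.Nonempty.image univ_nonempty ρ
  have semi : ∀ x ∈ T, ∀ y ∈ T, x ≠ y → D x y ∨ D y x := by
    intro x hx y hy hxy
    by_contra hcon
    push Not at hcon
    apply hxy
    rw [← hTρ x hx, ← hTρ y hy]
    exact hρ2 x y hcon.1 hcon.2
  have no4 : ∀ a ∈ T, ∀ b ∈ T, ∀ c ∈ T, ∀ d ∈ T, a ≠ c → b ≠ d → D a b → D b c → D c d →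
      D d a → False := by
    intro a ha b hb c hc d hd hac hbd h1 h2 h3 h4
    rcases semi a ha c hc hac with k | k
    · rcases semi b hb d hd hbd with l | l
      · exact hF a b c d h1 h2 h3 h4 k l
      · exact hF d a b c h4 h1 h2 h3 l k
    · rcases semi b hb d hd hbd with l | l
      · exact hF b c d a h2 h3 h4 h1 l k
      · exact hF c d a b h3 h4 h1 h2 k l
  obtain ⟨Q, hQT, hQne, hQ3, hQc, -⟩ := initial_set D T hTne semi no4
  -- the initial part
  obtain ⟨P, hP⟩ : ∃ P : Finset V, P = univ.filter (fun x => ρ x ∈ Q) := ⟨_, rfl⟩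
  have hmemP : ∀ x, x ∈ P ↔ ρ x ∈ Q := by intro x; rw [hP]; simp
  have hclosed : ∀ x y, x ∉ P → y ∈ P → ¬ E x y := by
    intro x y hx hy h
    rw [hmemP] at hx hy
    rw [hE] at h
    exact hQc (ρ x) (by rw [hT]; exact mem_image_of_mem ρ (mem_univ x)) hx (ρ y) hy h
  -- class sizes
  obtain ⟨cl, hcl⟩ : ∃ cl : V → ℕ, cl = fun t => (univ.filter (fun x => ρ x = t)).card := ⟨_, rfl⟩
  have hPcard : P.card = ∑ t ∈ Q, cl t := by
    have h1 : ∀ x ∈ P, ρ x ∈ Q := fun x hx => (hmemP x).1 hx
    rw [Finset.card_eq_sum_card_fiberwise h1]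
    apply Finset.sum_congr rfl
    intro t ht
    rw [hcl]
    simp only
    congr 1
    ext x
    simp only [mem_filter, mem_univ, true_and]
    constructor
    · exact fun h => h.2
    · intro h
      exact ⟨(hmemP x).2 (by rw [h]; exact ht), h⟩
  have hodle : ∀ x, od E x ≤ n - cl (ρ x) := by
    intro x
    have h1 : (univ.filter (fun y => E x y)) ⊆ univ \ (univ.filter (fun y => ρ y = ρ x)) := by
      intro y hy
      simp only [mem_filter, mem_univ, true_and] at hy
      simp only [mem_sdiff, mem_univ, true_and, mem_filter]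
      intro e
      rw [hE] at hy
      simp only [e] at hy
      exact irr _ hy
    have h2 := card_le_card h1
    rw [card_sdiff_of_subset (subset_univ _), card_univ, hcard] at h2
    rw [hcl]
    exact h2
  -- splitting the sum
  have hsplit : fs E = ∑ x ∈ P, (od E x) ^ 2 + ∑ x ∈ Pᶜ, (od E x) ^ 2 := by
    unfold fs
    exact (Finset.sum_add_sum_compl P _).symm
  have hfirst : ∑ x ∈ P, (od E x) ^ 2 ≤ ∑ t ∈ Q, cl t * (n - cl t) ^ 2 := by
    have h1 : ∀ x ∈ P, ρ x ∈ Q := fun x hx => (hmemP x).1 hx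
    calc ∑ x ∈ P, (od E x) ^ 2 ≤ ∑ x ∈ P, (n - cl (ρ x)) ^ 2 :=
          Finset.sum_le_sum (fun x _ => Nat.pow_le_pow_left (hodle x) 2)
      _ = ∑ t ∈ Q, ∑ x ∈ P with ρ x = t, (n - cl (ρ x)) ^ 2 :=
          (Finset.sum_fiberwise_of_maps_to h1 _).symm
      _ ≤ ∑ t ∈ Q, cl t * (n - cl t) ^ 2 := by
          apply Finset.sum_le_sum
          intro t ht
          have : ∑ x ∈ P with ρ x = t, (n - cl (ρ x)) ^ 2 = ∑ x ∈ P with ρ x = t, (n - cl t) ^ 2 := by
            apply Finset.sum_congr rfl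
            intro x hx
            rw [(mem_filter.1 hx).2]
          rw [this, Finset.sum_const, smul_eq_mul]
          apply Nat.mul_le_mul_right
          rw [hcl]
          apply card_le_card
          intro x hx
          simp only [mem_filter, mem_univ, true_and] at hx ⊢
          exact hx.2
  have hPpos : 0 < P.card := by
    obtain ⟨t, ht⟩ := hQne
    apply card_pos.2
    exact ⟨t, (hmemP t).2 (by rw [hTρ t (hQT ht)]; exact ht)⟩
  have hPle : P.card ≤ n := by rw [← hcard]; exact card_le_univ P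
  have hsecond : ∑ x ∈ Pᶜ, (od E x) ^ 2 ≤ g (n - P.card) := by
    have hc : Fintype.card {x // x ∉ P} = n - P.card := by
      rw [Fintype.card_subtype_compl, hcard, Fintype.card_coe]
    have h1 := ih (n - P.card) (by omega) {x // x ∉ P} (fun x y => E x.1 y.1) hc
      (fun v => irrE v.1) (fun a b c d => hFE a.1 b.1 c.1 d.1)
    refine le_trans (le_of_eq ?_) h1
    unfold fs
    rw [Finset.sum_subtype Pᶜ (p := fun x => x ∉ P) (fun x => by rw [mem_compl])
      (fun x => (od E x) ^ 2)]
    apply Finset.sum_congr rfl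
    intro x _
    congr 1
    unfold od
    rw [← Fintype.card_subtype, ← Fintype.card_subtype]
    apply Fintype.card_congr
    refine ⟨fun y => ⟨⟨y.1, ?_⟩, y.2⟩, fun y => ⟨y.1.1, y.2⟩, fun y => rfl, fun y => rfl⟩
    intro hy
    exact hclosed x.1 y.1 x.2 hy y.2
  rw [hsplit]
  refine le_trans (add_le_add hfirst hsecond) ?_
  rw [hPcard] at hPle hPpos ⊢
  -- numerical inequality
  have hcases : Q.card = 1 ∨ Q.card = 2 ∨ Q.card = 3 := by
    have := card_pos.2 hQne
    omega
  rcases hcases with h | h | h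
  · obtain ⟨t, rfl⟩ := card_eq_one.1 h
    simp only [sum_singleton] at hPle ⊢
    have h1 := numeric (cl t) 0 0 (n - cl t)
    have e1 : cl t + 0 + 0 + (n - cl t) = n := by omega
    rw [e1] at h1
    simpa using h1
  · obtain ⟨t, s, hts, rfl⟩ := card_eq_two.1 h
    rw [sum_pair hts] at hPle ⊢
    rw [sum_pair hts]
    have h1 := numeric (cl t) (cl s) 0 (n - (cl t + cl s))
    have e1 : cl t + cl s + 0 + (n - (cl t + cl s)) = n := by omega
    have e2 : cl s + 0 + (n - (cl t + cl s)) = n - cl t := by omega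
    have e3 : cl t + 0 + (n - (cl t + cl s)) = n - cl s := by omega
    rw [e1, e2, e3] at h1
    linarith
  · obtain ⟨t, s, r, hts, htr, hsr, rfl⟩ := card_eq_three.1 h
    have hsum : ∀ F : V → ℕ, ∑ x ∈ ({t, s, r} : Finset V), F x = F t + F s + F r := by
      intro F
      rw [sum_insert (by simp [hts, htr]), sum_pair hsr]
      ring
    rw [hsum] at hPle ⊢
    rw [hsum]
    have h1 := numeric (cl t) (cl s) (cl r) (n - (cl t + cl s + cl r))
    have e1 : cl t + cl s + cl r + (n - (cl t + cl s + cl r)) = n := by omega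
    have e2 : cl s + cl r + (n - (cl t + cl s + cl r)) = n - cl t := by omega
    have e3 : cl t + cl r + (n - (cl t + cl s + cl r)) = n - cl s := by omega
    have e4 : cl t + cl s + (n - (cl t + cl s + cl r)) = n - cl r := by omega
    rw [e1, e2, e3, e4] at h1
    linarith

end Pool.Agent.H28.R4
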