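import Mathlib
import Pool.Agent.H28.R4Upper

set_option autoImplicit false

namespace Pool.Agent.H28.R4

open Finset
open scoped Classical

lemma sum_mod (F : ℕ → ℕ) (a : ℕ) : ∑ x ∈ range (3 * a), F (x % 3) = a * (F 0 + F 1 + F 2) := by
  induction a with
  | zero => simp
  | succ a ih =>
    have e : 3 * (a + 1) = 3 * a + 1 + 1 + 1 := by ring
    rw [e, sum_range_succ, sum_range_succ, sum_range_succ, ih]
    have h0 : (3 * a) % 3 = 0 := by omega
    have h1 : (3 * a + 1) % 3 = 1 := by omega
    have h2 : (3 * a + 1 + 1) % 3 = 2 := by omega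
    rw [h0, h1, h2]
    ring

lemma od_range {m : ℕ} (p : ℕ → ℕ → Prop) (x : Fin m) :
    od (fun x y : Fin m => p x.val y.val) x = ∑ y ∈ range m, if p x.val y then 1 else 0 := by
  unfold od
  rw [card_filter]
  exact Fin.sum_univ_eq_sum_range (fun y => if p x.val y then 1 else 0) m

lemma fs_range {m : ℕ} (p : ℕ → ℕ → Prop) :
    fs (fun x y : Fin m => p x.val y.val) =
      ∑ x ∈ range m, (∑ y ∈ range m, if p x y then 1 else 0) ^ 2 := by
  unfold fs
  simp only [od_range]
  exact Fin.sum_univ_eq_sum_range (fun x => (∑ y ∈ range m, if p x y then 1 else 0) ^ 2) m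

/-- tripartite relation -/
def tri (x y : ℕ) : Prop := x % 3 ≠ y % 3

lemma tri_free {m : ℕ} : Fr (fun x y : Fin m => tri x.val y.val) := by
  intro a b c d h1 h2 h3 h4 h5 h6
  unfold tri at *
  omega

lemma tri_row (a x : ℕ) : ∑ y ∈ range (3 * a), (if tri x y then 1 else 0) = 2 * a := by
  have e : ∀ y, (if tri x y then 1 else 0) = (fun i => if x % 3 = i then 0 else 1) (y % 3) := by
    intro y
    unfold tri
    by_cases h : x % 3 = y % 3 <;> simp [h]
  rw [Finset.sum_congr rfl (fun y _ => e y), sum_mod (fun i => if x % 3 = i then 0 else 1) a]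
  have hx : x % 3 = 0 ∨ x % 3 = 1 ∨ x % 3 = 2 := by omega
  rcases hx with h | h | h <;> rw [h] <;> simp <;> ring

lemma tri_fs0 (a : ℕ) : fs (fun x y : Fin (3 * a) => tri x.val y.val) = 12 * a ^ 3 := by
  rw [fs_range]
  simp only [tri_row]
  rw [sum_const, card_range, smul_eq_mul]
  ring

lemma tri_fs2 (a : ℕ) : fs (fun x y : Fin (3 * a + 2) => tri x.val y.val) =
    a * (2 * a + 2) ^ 2 + 2 * (a + 1) * (2 * a + 1) ^ 2 := by
  rw [fs_range]
  have row : ∀ x : ℕ, ∑ y ∈ range (3 * a + 2), (if tri x y then 1 else 0) =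
      (fun i => if i = 2 then 2 * a + 2 else 2 * a + 1) (x % 3) := by
    intro x
    rw [sum_range_succ, sum_range_succ, tri_row]
    unfold tri
    have h0 : (3 * a) % 3 = 0 := by omega
    have h1 : (3 * a + 1) % 3 = 1 := by omega
    rw [h0, h1]
    have hx : x % 3 = 0 ∨ x % 3 = 1 ∨ x % 3 = 2 := by omega
    rcases hx with h | h | h <;> rw [h] <;> simp
  simp only [row]
  rw [sum_range_succ, sum_range_succ]
  have := sum_mod (fun i => (if i = 2 then 2 * a + 2 else 2 * a + 1) ^ 2) a
  simp only at this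
  rw [this]
  have h0 : (3 * a) % 3 = 0 := by omega
  have h1 : (3 * a + 1) % 3 = 1 := by omega
  rw [h0, h1]
  simp
  ring

/-- tripartite relation followed by a sink `3a` -/
def triSink (a x y : ℕ) : Prop := x ≠ 3 * a ∧ (y = 3 * a ∨ x % 3 ≠ y % 3)

lemma triSink_free {m a : ℕ} : Fr (fun x y : Fin m => triSink a x.val y.val) := by
  intro a b c d h1 h2 h3 h4 h5 h6
  unfold triSink at *
  omega

lemma triSink_irr (a x : ℕ) : ¬ triSink a x x := by
  unfold triSink
  omega

lemma tri_fs1 (a : ℕ) : fs (fun x y : Fin (3 * a + 1) => triSink a x.val y.val) =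
    3 * a * (2 * a + 1) ^ 2 := by
  rw [fs_range]
  rw [sum_range_succ]
  have last : ∑ y ∈ range (3 * a + 1), (if triSink a (3 * a) y then 1 else 0) = 0 := by
    apply sum_eq_zero
    intro y _
    rw [if_neg]
    unfold triSink
    omega
  rw [last]
  have row : ∀ x ∈ range (3 * a), (∑ y ∈ range (3 * a + 1), (if triSink a x y then 1 else 0)) ^ 2 =
      (2 * a + 1) ^ 2 := by
    intro x hx
    rw [mem_range] at hx
    rw [sum_range_succ]
    have e1 : ∑ y ∈ range (3 * a), (if triSink a x y then 1 else 0) =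
        ∑ y ∈ range (3 * a), (if tri x y then 1 else 0) := by
      apply sum_congr rfl
      intro y hy
      rw [mem_range] at hy
      have : triSink a x y ↔ tri x y := by
        unfold triSink tri
        omega
      simp only [this]
    rw [e1, tri_row, if_pos]
    unfold triSink
    omega
  rw [sum_congr rfl row, sum_const, card_range, smul_eq_mul]
  ring

end Pool.Agent.H28.R4
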