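import Mathlib
import Pool.Agent.H28.Discrete

set_option autoImplicit false

namespace Pool.Agent.H28.CrossTriples

open Finset
open scoped Classical

variable {n : ℕ}

/-- replace `j` by `i` -/
noncomputable def mv (i j : Fin n) (a : Finset (Fin n)) : Finset (Fin n) :=
  if i ∉ a ∧ j ∈ a then insert i (a.erase j) else a

/-- the map on the members of the family -/
noncomputable def gm (i j : Fin n) (A : Finset (Finset (Fin n))) (a : Finset (Fin n)) :
    Finset (Fin n) :=
  if mv i j a ∈ A then a else mv i j a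

/-- the shifted family -/
noncomputable def sh (i j : Fin n) (A : Finset (Finset (Fin n))) : Finset (Finset (Fin n)) :=
  A.image (gm i j A)

lemma mv_card (i j : Fin n) (a : Finset (Fin n)) : (mv i j a).card = a.card := by
  unfold mv
  split_ifs with h
  · rw [card_insert_of_notMem, card_erase_of_mem h.2]
    · have : 0 < a.card := card_pos.2 ⟨j, h.2⟩
      omega
    · intro h1
      exact h.1 (mem_of_mem_erase h1)
  · rfl

lemma gm_card (i j : Fin n) (A : Finset (Finset (Fin n))) (a : Finset (Fin n)) :
    (gm i j A a).card = a.card := by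
  unfold gm
  split_ifs
  · rfl
  · exact mv_card i j a

lemma mv_inj {i j : Fin n} (hij : i ≠ j) {a b : Finset (Fin n)} (ha : i ∉ a ∧ j ∈ a)
    (hb : i ∉ b ∧ j ∈ b) (h : mv i j a = mv i j b) : a = b := by
  unfold mv at h
  rw [if_pos ha, if_pos hb] at h
  have e : ∀ c : Finset (Fin n), i ∉ c ∧ j ∈ c → insert j ((insert i (c.erase j)).erase i) = c := by
    intro c hc
    rw [erase_insert (fun h1 => hc.1 (mem_of_mem_erase h1)), insert_erase hc.2]
  rw [← e a ha, ← e b hb, h]

lemma gm_injOn {i j : Fin n} (hij : i ≠ j) (A : Finset (Finset (Fin n))) :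
    Set.InjOn (gm i j A) (A : Set (Finset (Fin n))) := by
  intro a ha b hb h
  have hcond : ∀ c : Finset (Fin n), c ∈ A → mv i j c ∉ A → i ∉ c ∧ j ∈ c := by
    intro c hc hn
    by_contra hcon
    apply hn
    unfold mv
    rw [if_neg hcon]
    exact hc
  have ha' : a ∈ A := ha
  have hb' : b ∈ A := hb
  by_cases h1 : mv i j a ∈ A
  · by_cases h2 : mv i j b ∈ A
    · simpa [gm, h1, h2] using h
    · simp only [gm, h1, h2, if_true, if_false] at h
      rw [h] at ha'
      exact absurd ha' h2
  · by_cases h2 : mv i j b ∈ A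
    · simp only [gm, h1, h2, if_true, if_false] at h
      rw [← h] at hb'
      exact absurd hb' h1
    · simp only [gm, h1, h2, if_false] at h
      exact mv_inj hij (hcond a ha' h1) (hcond b hb' h2) h

lemma sh_card {i j : Fin n} (hij : i ≠ j) (A : Finset (Finset (Fin n))) :
    (sh i j A).card = A.card := card_image_of_injOn (gm_injOn hij A)

lemma mem_sh {i j : Fin n} {A : Finset (Finset (Fin n))} {x : Finset (Fin n)}
    (hx : x ∈ sh i j A) :
    (x ∈ A ∧ mv i j x ∈ A) ∨
      (∃ y ∈ A, i ∉ y ∧ j ∈ y ∧ x = insert i (y.erase j)) := by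
  unfold sh at hx
  rw [mem_image] at hx
  obtain ⟨y, hy, rfl⟩ := hx
  by_cases h : mv i j y ∈ A
  · left
    simp only [gm, h, if_true]
    exact ⟨hy, trivial⟩
  · right
    have hc : i ∉ y ∧ j ∈ y := by
      by_contra hcon
      apply h
      unfold mv
      rw [if_neg hcon]
      exact hy
    refine ⟨y, hy, hc.1, hc.2, ?_⟩
    simp only [gm, h, if_false]
    unfold mv
    rw [if_pos hc]

/-- no member of `A` meets a member of `B` in two points -/
def Cross (A B : Finset (Finset (Fin n))) : Prop :=
  ∀ a ∈ A, ∀ b ∈ B, ∀ x y, x ∈ a → y ∈ a → x ∈ b → y ∈ b → x = y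

lemma Cross.symm {A B : Finset (Finset (Fin n))} (h : Cross A B) : Cross B A :=
  fun b hb a ha x y h1 h2 h3 h4 => h a ha b hb x y h3 h4 h1 h2

/-- the mixed case of the next lemma -/
lemma cross_aux {i j : Fin n} (hij : i ≠ j) {A B : Finset (Finset (Fin n))} (h : Cross A B)
    (a b : Finset (Fin n)) (ha : a ∈ A) (hia : i ∉ a) (hja : j ∈ a)
    (hb : b ∈ B) (hb' : mv j i b ∈ B) (x y : Fin n) (hx : x ∈ insert i (a.erase j))
    (hy : y ∈ insert i (a.erase j)) (hxb : x ∈ b) (hyb : y ∈ b) : x = y := by
  -- the case where one of the points is `i`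
  have main : ∀ z : Fin n, z ∈ a.erase j → i ∈ b → z ∈ b → False := by
    intro z hz hib hzb
    have hza := mem_of_mem_erase hz
    have hzj : z ≠ j := ne_of_mem_erase hz
    by_cases hjb : j ∈ b
    · exact hzj (h a ha b hb z j hza hja hzb hjb)
    · have hm : mv j i b = insert j (b.erase i) := by
        unfold mv; rw [if_pos ⟨hjb, hib⟩]
      rw [hm] at hb'
      have hzi : z ≠ i := fun e => hia (e ▸ hza)
      exact hzj (h a ha _ hb' z j hza hja (mem_insert_of_mem (mem_erase.2 ⟨hzi, hzb⟩))
        (mem_insert_self _ _))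
  rw [mem_insert] at hx hy
  rcases hx with rfl | hx
  · rcases hy with rfl | hy
    · rfl
    · exact (main y hy hxb hyb).elim
  · rcases hy with rfl | hy
    · exact (main x hx hyb hxb).elim
    · exact h a ha b hb x y (mem_of_mem_erase hx) (mem_of_mem_erase hy) hxb hyb

lemma cross_sh {i j : Fin n} (hij : i ≠ j) {A B : Finset (Finset (Fin n))} (h : Cross A B) :
    Cross (sh i j A) (sh j i B) := by
  intro a' ha' b' hb' x y hxa hya hxb hyb
  rcases mem_sh ha' with ⟨h1, h2⟩ | ⟨a, h1, h2, h3, rfl⟩
  · rcases mem_sh hb' with ⟨g1, g2⟩ | ⟨b, g1, g2, g3, rfl⟩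
    · exact h a' h1 b' g1 x y hxa hya hxb hyb
    · exact cross_aux hij.symm h.symm b a' g1 g2 g3 h1 h2 x y hxb hyb hxa hya
  · rcases mem_sh hb' with ⟨g1, g2⟩ | ⟨b, g1, g2, g3, rfl⟩
    · exact cross_aux hij h a b' h1 h2 h3 g1 g2 x y hxa hya hxb hyb
    · have key : ∀ z, z ∈ insert i (a.erase j) → z ∈ insert j (b.erase i) → z ∈ a ∧ z ∈ b := by
        intro z hz1 hz2
        rw [mem_insert] at hz1 hz2
        rcases hz1 with rfl | hz1
        · rcases hz2 with hz2 | hz2
          · exact absurd hz2 hij
          · exact absurd rfl (ne_of_mem_erase hz2)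
        · rcases hz2 with rfl | hz2
          · exact absurd rfl (ne_of_mem_erase hz1)
          · exact ⟨mem_of_mem_erase hz1, mem_of_mem_erase hz2⟩
      obtain ⟨p1, p2⟩ := key x hxa hxb
      obtain ⟨q1, q2⟩ := key y hya hyb
      exact h a h1 b g1 x y p1 q1 p2 q2

/-- weight of a set -/
def wt (a : Finset (Fin n)) : ℕ := ∑ x ∈ a, (x : ℕ)

def Wt (A : Finset (Finset (Fin n))) : ℕ := ∑ a ∈ A, wt a

lemma mv_wt {i j : Fin n} (hij : i < j) (a : Finset (Fin n)) (h : i ∉ a ∧ j ∈ a) :
    wt (mv i j a) < wt a := by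
  unfold mv wt
  rw [if_pos h, sum_insert (fun h1 => h.1 (mem_of_mem_erase h1))]
  rw [← add_sum_erase a (fun x : Fin n => (x : ℕ)) h.2]
  have : (i : ℕ) < (j : ℕ) := hij
  simpa using this

lemma gm_wt {i j : Fin n} (hij : i < j) (A : Finset (Finset (Fin n))) (a : Finset (Fin n)) :
    wt (gm i j A a) ≤ wt a := by
  unfold gm
  split_ifs with h1
  · exact le_rfl
  · by_cases h : i ∉ a ∧ j ∈ a
    · exact (mv_wt hij a h).le
    · unfold mv; rw [if_neg h]

lemma sh_Wt {i j : Fin n} (hij : i < j) (A : Finset (Finset (Fin n))) (a : Finset (Fin n))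
    (ha : a ∈ A) (hc : i ∉ a ∧ j ∈ a) (hn : mv i j a ∉ A) : Wt (sh i j A) < Wt A := by
  unfold Wt sh
  rw [sum_image (gm_injOn hij.ne A)]
  apply sum_lt_sum (fun b _ => gm_wt hij A b)
  refine ⟨a, ha, ?_⟩
  unfold gm
  rw [if_neg hn]
  exact mv_wt hij a hc

/-- left shifted family -/
def Shifted (A : Finset (Finset (Fin n))) : Prop :=
  ∀ i j : Fin n, i < j → ∀ a ∈ A, i ∉ a → j ∈ a → insert i (a.erase j) ∈ A

lemma exists_shifted : ∀ (N : ℕ) (A B : Finset (Finset (Fin n))), Wt A ≤ N →
    (∀ a ∈ A, a.card = 3) → (∀ b ∈ B, b.card = 3) → Cross A B →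
    ∃ A' B' : Finset (Finset (Fin n)), A'.card = A.card ∧ B'.card = B.card ∧
      (∀ a ∈ A', a.card = 3) ∧ (∀ b ∈ B', b.card = 3) ∧ Cross A' B' ∧ Shifted A' := by
  intro N
  induction N with
  | zero =>
    intro A B hW hA hB hAB
    by_cases hs : Shifted A
    · exact ⟨A, B, rfl, rfl, hA, hB, hAB, hs⟩
    · exfalso
      unfold Shifted at hs
      push Not at hs
      obtain ⟨i, j, hij, a, ha, h1, h2, h3⟩ := hs
      have hm : mv i j a ∉ A := by
        unfold mv; rw [if_pos ⟨h1, h2⟩]; exact h3
      have := sh_Wt hij A a ha ⟨h1, h2⟩ hm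
      omega
  | succ N ih =>
    intro A B hW hA hB hAB
    by_cases hs : Shifted A
    · exact ⟨A, B, rfl, rfl, hA, hB, hAB, hs⟩
    · unfold Shifted at hs
      push Not at hs
      obtain ⟨i, j, hij, a, ha, h1, h2, h3⟩ := hs
      have hm : mv i j a ∉ A := by
        unfold mv; rw [if_pos ⟨h1, h2⟩]; exact h3
      have hlt := sh_Wt hij A a ha ⟨h1, h2⟩ hm
      obtain ⟨A', B', e1, e2, e3, e4, e5, e6⟩ := ih (sh i j A) (sh j i B) (by omega)
        (by
          intro c hc
          unfold sh at hc
          rw [mem_image] at hc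
          obtain ⟨d, hd, rfl⟩ := hc
          rw [gm_card]; exact hA d hd)
        (by
          intro c hc
          unfold sh at hc
          rw [mem_image] at hc
          obtain ⟨d, hd, rfl⟩ := hc
          rw [gm_card]; exact hB d hd)
        (cross_sh hij.ne hAB)
      exact ⟨A', B', by rw [e1, sh_card hij.ne], by rw [e2, sh_card hij.ne'], e3, e4, e5, e6⟩

/-- members of the family inside `I` -/
noncomputable def inn (F : Finset (Finset (Fin n))) (I : Finset (Fin n)) :
    Finset (Finset (Fin n)) := F.filter (fun f => f ⊆ I)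

/-- 2-subsets of `I` with the property `R` -/
noncomputable def prs (R : Finset (Fin n) → Prop) (I : Finset (Fin n)) :
    Finset (Finset (Fin n)) := (powersetCard 2 I).filter R

lemma inn_le (F : Finset (Finset (Fin n))) (hF : ∀ f ∈ F, f.card = 3) (I : Finset (Fin n))
    (v : Fin n) (R : Finset (Fin n) → Prop)
    (hR : ∀ f ∈ F, f ⊆ I → v ∈ f → R (f.erase v)) :
    (inn F I).card ≤ (inn F (I.erase v)).card + (prs R (I.erase v)).card := by
  have h1 : (inn F I).card = ((inn F I).filter (fun f => v ∉ f)).card +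
      ((inn F I).filter (fun f => ¬ (v ∉ f))).card :=
    (card_filter_add_card_filter_not (fun f => v ∉ f)).symm
  rw [h1]
  apply add_le_add
  · apply card_le_card
    intro f hf
    simp only [inn, mem_filter] at hf ⊢
    refine ⟨hf.1.1, ?_⟩
    intro x hx
    rw [mem_erase]
    exact ⟨fun e => hf.2 (e ▸ hx), hf.1.2 hx⟩
  · apply card_le_card_of_injOn (fun f => f.erase v)
    · intro f hf
      have hf' := (mem_filter.1 (mem_coe.1 hf))
      have hf1 := mem_filter.1 hf'.1
      have hv : v ∈ f := not_not.1 hf'.2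
      apply mem_coe.2
      unfold prs
      rw [mem_filter, mem_powersetCard]
      refine ⟨⟨erase_subset_erase v hf1.2, ?_⟩, hR f hf1.1 hf1.2 hv⟩
      rw [card_erase_of_mem hv, hF f hf1.1]
    · intro f hf g hg hfg
      have hv : v ∈ f := not_not.1 (mem_filter.1 (mem_coe.1 hf)).2
      have hv' : v ∈ g := not_not.1 (mem_filter.1 (mem_coe.1 hg)).2
      simp only at hfg
      rw [← insert_erase hv, hfg, insert_erase hv']

lemma inn_le' (F : Finset (Finset (Fin n))) (I : Finset (Fin n))
    (v : Fin n) (hR : ∀ f ∈ F, f ⊆ I → v ∉ f) :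
    (inn F I).card ≤ (inn F (I.erase v)).card := by
  apply card_le_card
  intro f hf
  simp only [inn, mem_filter] at hf ⊢
  refine ⟨hf.1, ?_⟩
  intro x hx
  rw [mem_erase]
  exact ⟨fun e => hR f hf.1 hf.2 (e ▸ hx), hf.2 hx⟩

lemma prs_le (R : Finset (Fin n) → Prop) (I : Finset (Fin n)) (v : Fin n) :
    (prs R I).card ≤ (prs R (I.erase v)).card + (I.erase v).card := by
  have h1 : (prs R I).card = ((prs R I).filter (fun f => v ∉ f)).card +
      ((prs R I).filter (fun f => ¬ (v ∉ f))).card :=
    (card_filter_add_card_filter_not (fun f => v ∉ f)).symm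
  rw [h1]
  apply add_le_add
  · apply card_le_card
    intro f hf
    simp only [prs, mem_filter, mem_powersetCard] at hf ⊢
    refine ⟨⟨?_, hf.1.1.2⟩, hf.1.2⟩
    intro x hx
    rw [mem_erase]
    exact ⟨fun e => hf.2 (e ▸ hx), hf.1.1.1 hx⟩
  · have h2 : (I.erase v).card = ((I.erase v).image (fun y => ({y} : Finset (Fin n)))).card := by
      rw [card_image_of_injective]
      exact singleton_injective
    rw [h2]
    apply card_le_card_of_injOn (fun f => f.erase v)
    · intro f hf
      have hf' := (mem_filter.1 (mem_coe.1 hf))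
      have hf1 := mem_filter.1 hf'.1
      have hf2 := mem_powersetCard.1 hf1.1
      have hv : v ∈ f := not_not.1 hf'.2
      have hc : (f.erase v).card = 1 := by rw [card_erase_of_mem hv, hf2.2]
      obtain ⟨y, hy⟩ := card_eq_one.1 hc
      apply mem_coe.2
      rw [mem_image]
      refine ⟨y, ?_, hy.symm⟩
      have : y ∈ f.erase v := by rw [hy]; exact mem_singleton_self y
      exact erase_subset_erase v hf2.1 this
    · intro f hf g hg hfg
      have hv : v ∈ f := not_not.1 (mem_filter.1 (mem_coe.1 hf)).2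
      have hv' : v ∈ g := not_not.1 (mem_filter.1 (mem_coe.1 hg)).2
      simp only at hfg
      rw [← insert_erase hv, hfg, insert_erase hv']

lemma prs_le' (R : Finset (Fin n) → Prop) (I : Finset (Fin n)) (v : Fin n)
    (hR : ∀ p ∈ powersetCard 2 I, v ∈ p → ¬ R p) :
    (prs R I).card ≤ (prs R (I.erase v)).card := by
  apply card_le_card
  intro f hf
  simp only [prs, mem_filter, mem_powersetCard] at hf ⊢
  refine ⟨⟨?_, hf.1.2⟩, hf.2⟩
  intro x hx
  rw [mem_erase]
  refine ⟨fun e => hR f (mem_powersetCard.2 hf.1) (e ▸ hx) hf.2, hf.1.1 hx⟩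

/-- pairs covered by the family -/
def Blue (A : Finset (Finset (Fin n))) (p : Finset (Fin n)) : Prop := ∃ a ∈ A, p ⊆ a

lemma blue_shift {A : Finset (Finset (Fin n))} (hs : Shifted A) {i j w : Fin n} (hij : i < j)
    (hwi : w ≠ i) (hwj : w ≠ j) (h : Blue A {w, j}) : Blue A {w, i} := by
  obtain ⟨a, ha, hp⟩ := h
  have hw : w ∈ a := hp (by simp)
  have hj : j ∈ a := hp (by simp)
  by_cases hi : i ∈ a
  · refine ⟨a, ha, ?_⟩
    intro x hx
    simp only [mem_insert, mem_singleton] at hx
    rcases hx with rfl | rfl <;> assumption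
  · refine ⟨_, hs i j hij a ha hi hj, ?_⟩
    intro x hx
    simp only [mem_insert, mem_singleton] at hx
    rcases hx with rfl | rfl
    · exact mem_insert_of_mem (mem_erase.2 ⟨hwj, hw⟩)
    · exact mem_insert_self _ _

/-- The recursive structure of a shifted pair. -/
theorem to_list (A B : Finset (Finset (Fin n))) (hA : ∀ a ∈ A, a.card = 3)
    (hB : ∀ b ∈ B, b.card = 3) (hAB : Cross A B) (hs : Shifted A) :
    ∀ (m : ℕ) (I : Finset (Fin n)), I.card = m → ∀ l : List Bool,
      ∃ l' : List Bool, l'.length = l.length + m ∧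
        T1 l + (inn A I).card + l.count true * (prs (Blue A) I).card
          + (l.count true).choose 2 * m ≤ T1 l' ∧
        T0 l + (inn B I).card + l.count false * (prs (fun p => ¬ Blue A p) I).card
          + (l.count false).choose 2 * m ≤ T0 l' := by
  intro m
  induction m with
  | zero =>
    intro I hI l
    have hI' : I = ∅ := card_eq_zero.1 hI
    subst hI'
    refine ⟨l, rfl, ?_, ?_⟩
    · have h1 : inn A (∅ : Finset (Fin n)) = ∅ := by
        unfold inn
        rw [filter_eq_empty_iff]
        intro a ha hsub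
        have := hA a ha
        rw [subset_empty.1 hsub] at this
        simp at this
      have h2 : prs (Blue A) (∅ : Finset (Fin n)) = ∅ := by
        unfold prs
        rw [powersetCard_eq_empty.2 (by simp)]
        rfl
      rw [h1, h2]; simp
    · have h1 : inn B (∅ : Finset (Fin n)) = ∅ := by
        unfold inn
        rw [filter_eq_empty_iff]
        intro a ha hsub
        have := hB a ha
        rw [subset_empty.1 hsub] at this
        simp at this
      have h2 : prs (fun p => ¬ Blue A p) (∅ : Finset (Fin n)) = ∅ := by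
        unfold prs
        rw [powersetCard_eq_empty.2 (by simp)]
        rfl
      rw [h1, h2]; simp
  | succ m ih =>
    intro I hI l
    have hne : I.Nonempty := card_pos.1 (by omega)
    obtain ⟨s, hsI, hmin⟩ : ∃ s ∈ I, ∀ y ∈ I, s ≤ y :=
      ⟨I.min' hne, min'_mem I hne, fun y hy => min'_le I y hy⟩
    obtain ⟨t, htI, hmax⟩ : ∃ t ∈ I, ∀ y ∈ I, y ≤ t :=
      ⟨I.max' hne, max'_mem I hne, fun y hy => le_max' I y hy⟩
    have two : ∀ p ∈ powersetCard 2 I, ∀ v ∈ p, ∃ y ∈ I, y ≠ v ∧ p = {v, y} := by
      intro p hp v hv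
      rw [mem_powersetCard] at hp
      have hc : (p.erase v).card = 1 := by rw [card_erase_of_mem hv, hp.2]
      obtain ⟨y, hy⟩ := card_eq_one.1 hc
      have hy' : y ∈ p.erase v := by rw [hy]; exact mem_singleton_self y
      refine ⟨y, hp.1 (mem_of_mem_erase hy'), ne_of_mem_erase hy', ?_⟩
      rw [← insert_erase hv, hy]
    have three : ∀ f : Finset (Fin n), f.card = 3 → f ⊆ I → ∀ v ∈ f,
        ∃ y ∈ I, y ≠ v ∧ v ∈ f ∧ y ∈ f := by
      intro f hf hfI v hv
      have hc : (f.erase v).card = 2 := by rw [card_erase_of_mem hv, hf]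
      have : (f.erase v).Nonempty := card_pos.1 (by omega)
      obtain ⟨y, hy⟩ := this
      exact ⟨y, hfI (mem_of_mem_erase hy), ne_of_mem_erase hy, hv, mem_of_mem_erase hy⟩
    by_cases hb : s ≠ t ∧ Blue A {s, t}
    · -- `s` is adjacent to everything in blue
      obtain ⟨hst, hb⟩ := hb
      have hall : ∀ y ∈ I, y ≠ s → Blue A {s, y} := by
        intro y hy hys
        rcases eq_or_lt_of_le (hmax y hy) with h | h
        · rw [h]; exact hb
        · exact blue_shift hs h hys.symm hst hb
      have hcard : (I.erase s).card = m := by rw [card_erase_of_mem hsI, hI]; rfl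
      obtain ⟨l', hlen, h1, h2⟩ := ih (I.erase s) hcard (true :: l)
      have a1 := inn_le A hA I s (Blue A) (by
        intro f hf _ _
        exact ⟨f, hf, erase_subset _ _⟩)
      have a2 := prs_le (Blue A) I s
      have a3 := inn_le' B I s (by
        intro f hf hfI hsf
        obtain ⟨y, hyI, hys, _, hyf⟩ := three f (hB f hf) hfI s hsf
        obtain ⟨a, ha, hpa⟩ := hall y hyI hys
        exact hys (hAB a ha f hf y s (hpa (by simp)) (hpa (by simp)) hyf hsf))
      have a4 := prs_le' (fun p => ¬ Blue A p) I s (by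
        intro p hp hsp hR
        obtain ⟨y, hyI, hys, rfl⟩ := two p hp s hsp
        exact hR (hall y hyI hys))
      rw [hcard] at a2
      refine ⟨l', by rw [hlen, List.length_cons]; omega, ?_, ?_⟩
      · refine le_trans ?_ h1
        rw [List.count_cons_self]
        simp only [T1]
        have hc : (l.count true + 1).choose 2 = (l.count true).choose 2 + l.count true := by
          rw [Nat.choose_succ_succ' _ 1, Nat.choose_one_right]; ring
        rw [hc]
        have := Nat.mul_le_mul_left (l.count true) a2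
        nlinarith
      · refine le_trans ?_ h2
        rw [List.count_cons_of_ne (by decide)]
        simp only [T0]
        have := Nat.mul_le_mul_left (l.count false) a4
        nlinarith
    · -- `t` is isolated in blue
      have hall : ∀ y ∈ I, y ≠ t → ¬ Blue A {t, y} := by
        intro y hy hyt hbl
        apply hb
        rcases eq_or_lt_of_le (hmin y hy) with h | h
        · rw [h]
          exact ⟨hyt, by rw [pair_comm]; exact hbl⟩
        · have hst : s ≠ t := by
            intro e
            rw [e] at h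
            exact absurd (hmax y hy) (not_le.2 h)
          refine ⟨hst, ?_⟩
          rw [pair_comm]
          exact blue_shift hs h hst.symm hyt.symm hbl
      have hcard : (I.erase t).card = m := by rw [card_erase_of_mem htI, hI]; rfl
      obtain ⟨l', hlen, h1, h2⟩ := ih (I.erase t) hcard (false :: l)
      have a1 := inn_le B hB I t (fun p => ¬ Blue A p) (by
        intro f hf hfI htf hbl
        obtain ⟨a, ha, hpa⟩ := hbl
        have hc : (f.erase t).card = 2 := by rw [card_erase_of_mem htf, hB f hf]
        obtain ⟨x, y, hxy, hxe⟩ := card_eq_two.1 hc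
        have hx : x ∈ f.erase t := by rw [hxe]; simp
        have hy : y ∈ f.erase t := by rw [hxe]; simp
        exact hxy (hAB a ha f hf x y (hpa hx) (hpa hy) (mem_of_mem_erase hx)
          (mem_of_mem_erase hy)))
      have a2 := prs_le (fun p => ¬ Blue A p) I t
      have a3 := inn_le' A I t (by
        intro f hf hfI htf
        obtain ⟨y, hyI, hyt, _, hyf⟩ := three f (hA f hf) hfI t htf
        apply hall y hyI hyt
        refine ⟨f, hf, ?_⟩
        intro x hx
        simp only [mem_insert, mem_singleton] at hx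
        rcases hx with rfl | rfl <;> assumption)
      have a4 := prs_le' (Blue A) I t (by
        intro p hp htp hR
        obtain ⟨y, hyI, hyt, rfl⟩ := two p hp t htp
        exact hall y hyI hyt hR)
      rw [hcard] at a2
      refine ⟨l', by rw [hlen, List.length_cons]; omega, ?_, ?_⟩
      · refine le_trans ?_ h1
        rw [List.count_cons_of_ne (by decide)]
        simp only [T1]
        have := Nat.mul_le_mul_left (l.count true) a4
        nlinarith
      · refine le_trans ?_ h2
        rw [List.count_cons_self]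
        simp only [T0]
        have hc : (l.count false + 1).choose 2 = (l.count false).choose 2 + l.count false := by
          rw [Nat.choose_succ_succ' _ 1, Nat.choose_one_right]; ring
        rw [hc]
        have := Nat.mul_le_mul_left (l.count false) a2
        nlinarith

theorem main_bound (hn : 29 ≤ n) (A B : Finset (Finset (Fin n))) (hA : ∀ a ∈ A, a.card = 3)
    (hB : ∀ b ∈ B, b.card = 3) (hAB : ∀ a ∈ A, ∀ b ∈ B, (a ∩ b).card ≤ 1) :
    ((A.card * B.card : ℕ) : ℝ) ≤ gam * ((n.choose 3 : ℕ) : ℝ) ^ 2 := by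
  have hC : Cross A B := by
    intro a ha b hb x y h1 h2 h3 h4
    exact card_le_one.1 (hAB a ha b hb) x (mem_inter.2 ⟨h1, h3⟩) y (mem_inter.2 ⟨h2, h4⟩)
  obtain ⟨A', B', e1, e2, e3, e4, e5, e6⟩ := exists_shifted (Wt A) A B le_rfl hA hB hC
  obtain ⟨l, hl, h1, h2⟩ := to_list A' B' e3 e4 e5 e6 n univ (by simp) []
  have hl' : l.length = n := by simpa using hl
  have g1 : A.card ≤ T1 l := by
    have : (inn A' univ).card = A.card := by
      rw [← e1]; unfold inn; simp
    rw [← this]
    simp only [T1, List.count_nil, Nat.zero_mul, Nat.choose_zero_succ] at h1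
    omega
  have g2 : B.card ≤ T0 l := by
    have : (inn B' univ).card = B.card := by
      rw [← e2]; unfold inn; simp
    rw [← this]
    simp only [T0, List.count_nil, Nat.zero_mul, Nat.choose_zero_succ] at h2
    omega
  have h3 := list_bound l (by omega)
  rw [hl'] at h3
  refine le_trans ?_ h3
  have : A.card * B.card ≤ T1 l * T0 l := Nat.mul_le_mul g1 g2
  exact_mod_cast this

end Pool.Agent.H28.CrossTriples
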